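import Mathlib
import Pool.Agent.TH940.YM.Stm
import Pool.Agent.W270.SCH.W2

/-!
# Expansion of Wick products and of their Gaussian expectation
-/

set_option autoImplicit false

namespace Pool.Agent.TH500.YM_WICK

open Pool.Agent.W793.SCH Pool.Agent.TH940.YM Pool.Agent.W270.SCH

/-! ### the recursion for the Wick products -/

section Wick

variable {ι : Type*} [DecidableEq ι]

omit [DecidableEq ι] in
theorem wpr_nil (A : ι → ι → ℝ) (X : ι → ℝ) : wpr A X ([] : List ι) = 1 := by
  rw [wpr]

theorem wpr_cons (A : ι → ι → ℝ) (X : ι → ℝ) (a : ι) (l : List ι) (h : l.Nodup) :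
    wpr A X (a :: l) = X a * wpr A X l - ∑ b ∈ l.toFinset, A a b * wpr A X (l.erase b) := by
  rw [wpr]
  congr 1
  refine Finset.sum_bij (fun i _ => l.get i) ?_ ?_ ?_ ?_
  · intro i _
    simp
  · intro i _ j _ hij
    exact (List.Nodup.get_inj_iff h).1 hij
  · intro b hb
    obtain ⟨i, hi⟩ := List.get_of_mem (List.mem_toFinset.1 hb)
    exact ⟨i, Finset.mem_univ _, hi⟩
  · intro i _
    rw [h.erase_get i]

/-! ### exchange of the sums -/

theorem sum_powerset_mem (s : Finset ι) (F : ι → Finset ι → ℝ) :
    ∑ S ∈ s.powerset, ∑ b ∈ S, F b S = ∑ b ∈ s, ∑ T ∈ (s.erase b).powerset, F b (insert b T) := by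
  rw [Finset.sum_sigma', Finset.sum_sigma']
  refine Finset.sum_bij' (fun x _ => ⟨x.2, x.1.erase x.2⟩) (fun x _ => ⟨insert x.1 x.2, x.1⟩)
    ?_ ?_ ?_ ?_ ?_
  · rintro ⟨S, b⟩ h
    simp only [Finset.mem_sigma, Finset.mem_powerset] at h ⊢
    exact ⟨h.1 h.2, Finset.erase_subset_erase _ h.1⟩
  · rintro ⟨b, T⟩ h
    simp only [Finset.mem_sigma, Finset.mem_powerset] at h ⊢
    refine ⟨?_, Finset.mem_insert_self _ _⟩
    intro x hx
    rw [Finset.mem_insert] at hx
    rcases hx with rfl | hx
    · exact h.1
    · exact Finset.mem_of_mem_erase (h.2 hx)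
  · rintro ⟨S, b⟩ h
    simp only [Finset.mem_sigma, Finset.mem_powerset] at h
    simp [Finset.insert_erase h.2]
  · rintro ⟨b, T⟩ h
    simp only [Finset.mem_sigma, Finset.mem_powerset] at h
    have : b ∉ T := fun hb => by simpa using h.2 hb
    simp [Finset.erase_insert this]
  · rintro ⟨S, b⟩ h
    simp only [Finset.mem_sigma, Finset.mem_powerset] at h
    simp [Finset.insert_erase h.2]

theorem sum_powerset_not_mem (s : Finset ι) (F : ι → Finset ι → ℝ) :
    ∑ S ∈ s.powerset, ∑ b ∈ s \ S, F b S = ∑ b ∈ s, ∑ T ∈ (s.erase b).powerset, F b T := by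
  rw [Finset.sum_sigma', Finset.sum_sigma']
  refine Finset.sum_bij' (fun x _ => ⟨x.2, x.1⟩) (fun x _ => ⟨x.2, x.1⟩)
    ?_ ?_ ?_ ?_ ?_
  · rintro ⟨S, b⟩ h
    simp only [Finset.mem_sigma, Finset.mem_powerset, Finset.mem_sdiff] at h ⊢
    refine ⟨h.2.1, fun x hx => ?_⟩
    rw [Finset.mem_erase]
    exact ⟨fun h' => h.2.2 (h' ▸ hx), h.1 hx⟩
  · rintro ⟨b, T⟩ h
    simp only [Finset.mem_sigma, Finset.mem_powerset, Finset.mem_sdiff] at h ⊢
    exact ⟨fun x hx => Finset.mem_of_mem_erase (h.2 hx), h.1, fun hb => by simpa using h.2 hb⟩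
  · rintro ⟨S, b⟩ h
    rfl
  · rintro ⟨b, T⟩ h
    rfl
  · rintro ⟨S, b⟩ h
    rfl

/-! ### filters -/

theorem filter_insert_erase (l : List ι) (hl : l.Nodup) (b : ι) (T : Finset ι) (hb : b ∉ T) :
    (l.filter (· ∈ insert b T)).erase b = (l.erase b).filter (· ∈ T) := by
  rw [List.Nodup.erase_eq_filter (hl.filter _), List.Nodup.erase_eq_filter hl, List.filter_filter,
    List.filter_filter]
  refine List.filter_congr fun x _ => ?_
  by_cases hx : x = b
  · subst hx
    simp [hb]
  · simp [hx, Bool.and_comm]

theorem filter_not_insert (l : List ι) (hl : l.Nodup) (b : ι) (T : Finset ι) :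
    l.filter (· ∉ insert b T) = (l.erase b).filter (· ∉ T) := by
  rw [List.Nodup.erase_eq_filter hl, List.filter_filter]
  refine List.filter_congr fun x _ => ?_
  by_cases hx : x = b
  · subst hx
    simp
  · simp [hx]

theorem filter_erase_mem (l : List ι) (hl : l.Nodup) (b : ι) (T : Finset ι) (hb : b ∉ T) :
    l.filter (· ∈ T) = (l.erase b).filter (· ∈ T) := by
  rw [List.Nodup.erase_eq_filter hl, List.filter_filter]
  refine List.filter_congr fun x _ => ?_
  by_cases hx : x = b
  · subst hx
    simp [hb]
  · simp [hx]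

theorem filter_not_erase (l : List ι) (hl : l.Nodup) (b : ι) (T : Finset ι) :
    (l.filter (· ∉ T)).erase b = (l.erase b).filter (· ∉ T) := by
  rw [List.Nodup.erase_eq_filter (hl.filter _), List.Nodup.erase_eq_filter hl, List.filter_filter,
    List.filter_filter]
  refine List.filter_congr fun x _ => ?_
  rw [Bool.and_comm]

theorem toFinset_erase (l : List ι) (hl : l.Nodup) (b : ι) :
    (l.erase b).toFinset = l.toFinset.erase b := by
  ext x
  simp only [List.mem_toFinset, Finset.mem_erase, hl.mem_erase_iff]

theorem toFinset_filter_mem (l : List ι) (S : Finset ι) (hS : S ⊆ l.toFinset) :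
    (l.filter (· ∈ S)).toFinset = S := by
  ext x
  simp only [List.mem_toFinset, List.mem_filter, decide_eq_true_eq]
  exact ⟨fun h => h.2, fun h => ⟨List.mem_toFinset.1 (hS h), h⟩⟩

theorem toFinset_filter_not_mem (l : List ι) (S : Finset ι) :
    (l.filter (· ∉ S)).toFinset = l.toFinset \ S := by
  ext x
  simp

theorem filter_cons_mem (a : ι) (l : List ι) (ha : a ∉ l) (S : Finset ι) :
    (a :: l).filter (· ∈ insert a S) = a :: l.filter (· ∈ S) := by
  rw [List.filter_cons_of_pos (by simp)]
  congr 1
  refine List.filter_congr fun x hx => ?_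
  have : x ≠ a := fun h => ha (h ▸ hx)
  simp [this]

theorem filter_cons_not_mem (a : ι) (l : List ι) (ha : a ∉ l) (S : Finset ι) :
    (a :: l).filter (· ∉ insert a S) = l.filter (· ∉ S) := by
  rw [List.filter_cons_of_neg (by simp)]
  refine List.filter_congr fun x hx => ?_
  have : x ≠ a := fun h => ha (h ▸ hx)
  simp [this]

/-! ### the expansion of the Wick product -/

theorem W3_aux (A : ι → ι → ℝ) (X : ι → ℝ) : ∀ (n : ℕ) (l : List ι), l.length = n → l.Nodup →
    wpr A X l = ∑ S ∈ l.toFinset.powerset, haf (fun u v => -A u v) (l.filter (· ∈ S)) *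
      ∏ u ∈ l.toFinset \ S, X u := by
  intro n
  induction n using Nat.strong_induction_on with
  | _ n ih =>
    intro l hlen hnd
    cases l with
    | nil => simp [wpr_nil, haf_nil]
    | cons a l =>
      have hnd' := List.nodup_cons.1 hnd
      have ha : a ∉ l.toFinset := by simpa using hnd'.1
      simp only [List.length_cons] at hlen
      rw [wpr_cons A X a l hnd'.2, List.toFinset_cons, Finset.sum_powerset_insert ha]
      have e1 : ∑ S ∈ l.toFinset.powerset, haf (fun u v => -A u v) ((a :: l).filter (· ∈ S)) *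
          ∏ u ∈ insert a l.toFinset \ S, X u = X a * wpr A X l := by
        rw [ih l.length (by omega) l rfl hnd'.2, Finset.mul_sum]
        refine Finset.sum_congr rfl fun S hS => ?_
        have haS : a ∉ S := fun h => ha (Finset.mem_powerset.1 hS h)
        rw [List.filter_cons_of_neg (by simpa using haS), Finset.insert_sdiff_of_notMem _ haS,
          Finset.prod_insert (by simp [hnd'.1])]
        ring
      have e2 : ∑ S ∈ l.toFinset.powerset,
          haf (fun u v => -A u v) ((a :: l).filter (· ∈ insert a S)) *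
          ∏ u ∈ insert a l.toFinset \ insert a S, X u =
          ∑ S ∈ l.toFinset.powerset, ∑ b ∈ S, -A a b *
            haf (fun u v => -A u v) ((l.filter (· ∈ S)).erase b) * ∏ u ∈ l.toFinset \ S, X u := by
        refine Finset.sum_congr rfl fun S hS => ?_
        have hS' := Finset.mem_powerset.1 hS
        have haS : a ∉ S := fun h => ha (hS' h)
        rw [filter_cons_mem a l hnd'.1, haf_cons _ _ _ (hnd'.2.filter _),
          toFinset_filter_mem l S hS', Finset.sum_mul]
        have : insert a l.toFinset \ insert a S = l.toFinset \ S := by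
          ext x
          simp only [Finset.mem_sdiff, Finset.mem_insert, not_or]
          constructor
          · rintro ⟨h1, h2, h3⟩
            exact ⟨h1.resolve_left h2, h3⟩
          · rintro ⟨h1, h2⟩
            exact ⟨Or.inr h1, fun h => ha (h ▸ h1), h2⟩
        rw [this]
      rw [e1, e2, sum_powerset_mem l.toFinset (fun b S => -A a b *
            haf (fun u v => -A u v) ((l.filter (· ∈ S)).erase b) * ∏ u ∈ l.toFinset \ S, X u),
        sub_eq_add_neg, ← Finset.sum_neg_distrib]
      congr 1
      refine Finset.sum_congr rfl fun b hb => ?_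
      have hb' : b ∈ l := List.mem_toFinset.1 hb
      have hlt : (l.erase b).length < n := by
        rw [List.length_erase_of_mem hb']
        omega
      rw [ih _ hlt (l.erase b) rfl (hnd'.2.erase b), toFinset_erase l hnd'.2 b, Finset.mul_sum,
        ← Finset.sum_neg_distrib]
      refine Finset.sum_congr rfl fun T hT => ?_
      have hbT : b ∉ T := fun h => by simpa using Finset.mem_powerset.1 hT h
      rw [filter_insert_erase l hnd'.2 b T hbT]
      have : l.toFinset \ insert b T = l.toFinset.erase b \ T := by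
        ext x
        simp only [Finset.mem_sdiff, Finset.mem_insert, Finset.mem_erase, not_or]
        tauto
      rw [this]
      ring

/-! ### the binomial identity -/

theorem haf_add (A B : ι → ι → ℝ) : ∀ (n : ℕ) (l : List ι), l.length = n → l.Nodup →
    haf (fun u v => A u v + B u v) l = ∑ S ∈ l.toFinset.powerset, haf A (l.filter (· ∈ S)) *
      haf B (l.filter (· ∉ S)) := by
  intro n
  induction n using Nat.strong_induction_on with
  | _ n ih =>
    intro l hlen hnd
    cases l with
    | nil => simp [haf_nil]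
    | cons a l =>
      have hnd' := List.nodup_cons.1 hnd
      have ha : a ∉ l.toFinset := by simpa using hnd'.1
      simp only [List.length_cons] at hlen
      rw [haf_cons _ a l hnd'.2, List.toFinset_cons, Finset.sum_powerset_insert ha]
      have e1 : ∑ S ∈ l.toFinset.powerset, haf A ((a :: l).filter (· ∈ S)) *
          haf B ((a :: l).filter (· ∉ S)) =
          ∑ S ∈ l.toFinset.powerset, ∑ b ∈ l.toFinset \ S, B a b * (haf A (l.filter (· ∈ S)) *
            haf B ((l.filter (· ∉ S)).erase b)) := by
        refine Finset.sum_congr rfl fun S hS => ?_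
        have haS : a ∉ S := fun h => ha (Finset.mem_powerset.1 hS h)
        rw [List.filter_cons_of_neg (by simpa using haS), List.filter_cons_of_pos (by simpa using haS),
          haf_cons _ _ _ (hnd'.2.filter _), toFinset_filter_not_mem, Finset.mul_sum]
        refine Finset.sum_congr rfl fun b _ => ?_
        ring
      have e2 : ∑ S ∈ l.toFinset.powerset, haf A ((a :: l).filter (· ∈ insert a S)) *
          haf B ((a :: l).filter (· ∉ insert a S)) =
          ∑ S ∈ l.toFinset.powerset, ∑ b ∈ S, A a b * (haf A ((l.filter (· ∈ S)).erase b) *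
            haf B (l.filter (· ∉ S))) := by
        refine Finset.sum_congr rfl fun S hS => ?_
        have hS' := Finset.mem_powerset.1 hS
        rw [filter_cons_mem a l hnd'.1, filter_cons_not_mem a l hnd'.1,
          haf_cons _ _ _ (hnd'.2.filter _), toFinset_filter_mem l S hS', Finset.sum_mul]
        refine Finset.sum_congr rfl fun b _ => ?_
        ring
      rw [e1, e2, sum_powerset_mem l.toFinset (fun b S => A a b *
          (haf A ((l.filter (· ∈ S)).erase b) * haf B (l.filter (· ∉ S)))),
        sum_powerset_not_mem l.toFinset (fun b S => B a b * (haf A (l.filter (· ∈ S)) *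
            haf B ((l.filter (· ∉ S)).erase b))), ← Finset.sum_add_distrib]
      refine Finset.sum_congr rfl fun b hb => ?_
      have hb' : b ∈ l := List.mem_toFinset.1 hb
      have hlt : (l.erase b).length < n := by
        rw [List.length_erase_of_mem hb']
        omega
      rw [ih _ hlt (l.erase b) rfl (hnd'.2.erase b), toFinset_erase l hnd'.2 b, Finset.mul_sum,
        ← Finset.sum_add_distrib]
      refine Finset.sum_congr rfl fun T hT => ?_
      have hbT : b ∉ T := fun h => by simpa using Finset.mem_powerset.1 hT h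
      rw [filter_insert_erase l hnd'.2 b T hbT, filter_not_insert l hnd'.2 b T,
        filter_not_erase l hnd'.2 b T, filter_erase_mem l hnd'.2 b T hbT]
      ring

/-! ### concatenations -/

theorem haf_append (A : ι → ι → ℝ) : ∀ (n : ℕ) (l₁ l₂ : List ι), l₁.length = n → (l₁ ++ l₂).Nodup →
    (∀ u ∈ l₁, ∀ v ∈ l₂, A u v = 0) → haf A (l₁ ++ l₂) = haf A l₁ * haf A l₂ := by
  intro n
  induction n using Nat.strong_induction_on with
  | _ n ih =>
    intro l₁ l₂ hlen hnd h0
    cases l₁ with
    | nil => simp [haf_nil]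
    | cons a l₁ =>
      simp only [List.length_cons] at hlen
      rw [List.cons_append] at hnd ⊢
      have hnd' := List.nodup_cons.1 hnd
      have hnd1 : l₁.Nodup := (List.nodup_append.1 hnd'.2).1
      have hdisj := (List.nodup_append.1 hnd'.2).2.2
      rw [haf_cons _ _ _ hnd'.2, haf_cons _ _ _ hnd1, List.toFinset_append, Finset.sum_union]
      · have : ∑ b ∈ l₂.toFinset, A a b * haf A ((l₁ ++ l₂).erase b) = 0 := by
          refine Finset.sum_eq_zero fun b hb => ?_
          rw [h0 a List.mem_cons_self b (List.mem_toFinset.1 hb), zero_mul]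
        rw [this, add_zero, Finset.sum_mul]
        refine Finset.sum_congr rfl fun b hb => ?_
        have hb' : b ∈ l₁ := List.mem_toFinset.1 hb
        rw [List.erase_append_left _ hb', ih (l₁.erase b).length ?_ (l₁.erase b) l₂ rfl ?_ ?_, mul_assoc]
        · rw [List.length_erase_of_mem hb']
          omega
        · rw [← List.erase_append_left _ hb']
          exact hnd'.2.erase b
        · intro u hu v hv
          exact h0 u (List.mem_cons_of_mem _ (List.mem_of_mem_erase hu)) v hv
      · rw [Finset.disjoint_left]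
        intro x hx hx'
        exact hdisj x (List.mem_toFinset.1 hx) x (List.mem_toFinset.1 hx') rfl

end Wick

theorem t_W3 : S_W3 := by
  intro ι _ A X l hl
  exact W3_aux A X l.length l rfl hl

/-! ### the blocks -/

theorem mem_lr {k : ℕ} (m : Fin k → ℕ) (r : Fin k) (u : (r : Fin k) × Fin (m r)) :
    u ∈ lr m r ↔ u.1 = r := by
  unfold lr
  rw [List.mem_map]
  constructor
  · rintro ⟨i, _, rfl⟩
    rfl
  · rintro rfl
    exact ⟨u.2, List.mem_finRange _, rfl⟩

theorem nodup_lr {k : ℕ} (m : Fin k → ℕ) (r : Fin k) : (lr m r).Nodup := by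
  unfold lr
  refine List.Nodup.map ?_ (List.nodup_finRange _)
  intro i j h
  exact eq_of_heq (Sigma.mk.inj h).2

theorem nodup_flatMap_lr {k : ℕ} (m : Fin k → ℕ) (L : List (Fin k)) (hL : L.Nodup) :
    (L.flatMap (lr m)).Nodup := by
  rw [List.nodup_flatMap]
  refine ⟨fun r _ => nodup_lr m r, ?_⟩
  refine List.Pairwise.imp ?_ hL
  intro r s hrs
  simp only [Function.onFun, List.disjoint_left]
  intro u hu hv
  rw [mem_lr] at hu hv
  exact hrs (hu.symm.trans hv)

theorem mem_al {k : ℕ} (m : Fin k → ℕ) (u : (r : Fin k) × Fin (m r)) : u ∈ al m := by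
  unfold al
  rw [List.mem_flatMap]
  exact ⟨u.1, List.mem_finRange _, (mem_lr m _ u).2 rfl⟩

theorem nodup_al {k : ℕ} (m : Fin k → ℕ) : (al m).Nodup :=
  nodup_flatMap_lr m _ (List.nodup_finRange _)

theorem haf_blocks {k : ℕ} (m : Fin k → ℕ)
    (A : (r : Fin k) × Fin (m r) → (r : Fin k) × Fin (m r) → ℝ)
    (S : Finset ((r : Fin k) × Fin (m r))) : ∀ L : List (Fin k), L.Nodup →
    haf (fun u v => -(if u.1 = v.1 then A u v else 0)) ((L.flatMap (lr m)).filter (· ∈ S)) =
      (L.map fun r => haf (fun u v => -A u v) ((lr m r).filter (· ∈ S))).prod := by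
  intro L
  induction L with
  | nil =>
    intro _
    simp [haf_nil]
  | cons r L ih =>
    intro hL
    have hL' := List.nodup_cons.1 hL
    have hnd : (((r :: L).flatMap (lr m)).filter (· ∈ S)).Nodup :=
      (nodup_flatMap_lr m _ hL).filter _
    rw [List.flatMap_cons, List.filter_append] at hnd ⊢
    rw [haf_append _ _ _ _ rfl hnd, List.map_cons, List.prod_cons, ih hL'.2]
    · congr 1
      refine haf_congr _ _ _ _ rfl ((nodup_lr m r).filter _) ?_
      intro u hu v hv _
      have hu' := (mem_lr m r u).1 (List.mem_filter.1 hu).1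
      have hv' := (mem_lr m r v).1 (List.mem_filter.1 hv).1
      rw [if_pos (hu'.trans hv'.symm)]
    · intro u hu v hv
      have hu' := (mem_lr m r u).1 (List.mem_filter.1 hu).1
      have hv' := (List.mem_filter.1 hv).1
      rw [List.mem_flatMap] at hv'
      obtain ⟨s, hs, hvs⟩ := hv'
      rw [mem_lr] at hvs
      have : u.1 ≠ v.1 := by
        intro h
        apply hL'.1
        rw [← hu', h, hvs]
        exact hs
      rw [if_neg this, neg_zero]

theorem t_W4 : S_W4 := by
  intro k m A _
  have h := haf_add (fun u v : (r : Fin k) × Fin (m r) => -(if u.1 = v.1 then A u v else 0)) A _ (al m) rfl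
    (nodup_al m)
  have e : (fun u v : (r : Fin k) × Fin (m r) => -(if u.1 = v.1 then A u v else 0) + A u v) =
      fun u v => if u.1 = v.1 then 0 else A u v := by
    funext u v
    split_ifs <;> simp
  rw [e] at h
  have hu : (al m).toFinset = Finset.univ := by
    ext u
    simp [mem_al]
  rw [h, hu, Finset.powerset_univ]
  refine Finset.sum_congr rfl fun S _ => ?_
  congr 1
  have := haf_blocks m A S (List.finRange k) (List.nodup_finRange k)
  unfold al
  rw [this]
  exact Fin.prod_univ_def _

end Pool.Agent.TH500.YM_WICK
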