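import Mathlib
import Pool.Agent.TH278.Defs3
import Pool.Agent.TH554.J639
import Pool.Agent.H438R2.RZ.R3
set_option autoImplicit false

namespace Pool.Agent.TH500.J718

open MeasureTheory Set Complex Filter Topology
open scoped ENNReal RealInnerProductSpace
open Pool.Agent.TH278
open Pool.Agent.H438R2.RZ (e Good ft Pl Bump TR)
open Pool.Agent.H789R2.FR (E)

/-- product integrals over `ℝ^k` -/
lemma lint_pi (k : ℕ) (Φ : Fin k → ℝ → ℝ≥0∞) (hΦ : ∀ i, Measurable (Φ i)) :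
    ∫⁻ w : Fin k → ℝ, ∏ i, Φ i (w i) = ∏ i, ∫⁻ s, Φ i s := by
  induction k with
  | zero =>
    rw [volume_pi, Measure.pi_of_empty]
    simp
  | succ k ih =>
    have h2 := volume_preserving_piFinSuccAbove (fun _ : Fin (k + 1) => ℝ) 0
    have h3 : ∫⁻ w : Fin (k + 1) → ℝ, ∏ i, Φ i (w i) =
        ∫⁻ x : ℝ × (Fin k → ℝ), Φ 0 x.1 * ∏ i, Φ (Fin.succ i) (x.2 i) := by
      rw [← h2.lintegral_comp_emb (MeasurableEquiv.measurableEmbedding _)]
      refine lintegral_congr fun w => ?_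
      rw [Fin.prod_univ_succ]
      rfl
    have h4 : AEMeasurable (fun w : Fin k → ℝ => ∏ i, Φ (Fin.succ i) (w i)) volume :=
      (Finset.measurable_prod _ (fun i _ => (hΦ _).comp (measurable_pi_apply i))).aemeasurable
    rw [h3, Measure.volume_eq_prod, lintegral_prod_mul (hΦ 0).aemeasurable h4,
      ih _ (fun i => hΦ _), Fin.prod_univ_succ]

/-- product integrals over `ℝ^{k+2}` -/
lemma lint_prod (k : ℕ) (G : ℝ × ℝ → ℝ≥0∞) (hG : Measurable G) (Φ : Fin k → ℝ → ℝ≥0∞)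
    (hΦ : ∀ i, Measurable (Φ i)) :
    ∫⁻ x : E (k + 2), G (x 0, x 1) * ∏ i : Fin k, Φ i (x i.succ.succ) =
      (∫⁻ z, G z) * ∏ i, ∫⁻ s, Φ i s := by
  obtain ⟨ι, hι, hm, -, -⟩ := Pool.Agent.TH554.J639.inp_equiv k
  rw [← hm.lintegral_comp_emb ι.measurableEmbedding]
  have h1 : ∀ x : (ℝ × ℝ) × E k, G ((ι x) 0, (ι x) 1) * ∏ i : Fin k, Φ i ((ι x) i.succ.succ) =
      G x.1 * ∏ i : Fin k, Φ i (x.2 i) := by
    intro x
    rw [hι]
    unfold inp
    simp
  simp_rw [h1]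
  have hmeas : Measurable (fun w : E k => ∏ i : Fin k, Φ i (w i)) :=
    Finset.measurable_prod _ (fun i _ => (hΦ _).comp (by fun_prop))
  rw [Measure.volume_eq_prod, lintegral_prod_mul hG.aemeasurable hmeas.aemeasurable]
  congr 1
  rw [← lint_pi k Φ hΦ]
  have h3 := EuclideanSpace.volume_preserving_symm_measurableEquiv_toLp (Fin k)
  rw [← h3.lintegral_comp_emb (MeasurableEquiv.measurableEmbedding _)]
  rfl

lemma ML_cont (ψ : ℝ → ℝ) (hψ : Bump ψ) (L : ℝ) : Continuous (ML ψ L) := by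
  unfold ML
  exact hψ.1.continuous.comp (by fun_prop)

lemma ML_zero (ψ : ℝ → ℝ) (hψ : Bump ψ) (L : ℝ) (u : ℝ) (hu : 2 < u) : ML ψ L u = 0 := by
  unfold ML
  by_contra h
  have := (hψ.2 _ h).1
  nlinarith [sq_nonneg L]

/-- measurability of the operator -/
lemma TR_meas (n : ℕ) (M : ℝ → ℝ) (hM : Continuous M) (f : E n → ℂ) (hf : Measurable f) :
    Measurable (TR n M f) := by
  have hFm : Measurable (fun ξ : E n => ∫ y : E n, e (-(⟪y, ξ⟫ : ℝ)) * f y) := by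
    have : StronglyMeasurable (Function.uncurry (fun (ξ y : E n) => e (-(⟪y, ξ⟫ : ℝ)) * f y)) := by
      refine Measurable.stronglyMeasurable ?_
      refine Measurable.mul ?_ (hf.comp measurable_snd)
      exact (Pool.Agent.TH554.J639.e_cont.comp (by fun_prop)).measurable
    exact this.integral_prod_right.measurable
  have : StronglyMeasurable (Function.uncurry (fun (x ξ : E n) => ((M (‖ξ‖ ^ 2) : ℝ) : ℂ) *
      (∫ y : E n, e (-(⟪y, ξ⟫ : ℝ)) * f y) * e (⟪x, ξ⟫ : ℝ))) := by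
    refine Measurable.stronglyMeasurable ?_
    refine Measurable.mul (Measurable.mul ?_ (hFm.comp measurable_snd)) ?_
    · have : Continuous (fun p : E n × E n => ((M (‖p.2‖ ^ 2) : ℝ) : ℂ)) := by fun_prop
      exact this.measurable
    · exact (Pool.Agent.TH554.J639.e_cont.comp (by fun_prop)).measurable
  exact this.integral_prod_right.measurable

/-- linearity -/
lemma TR_smul (n : ℕ) (M : ℝ → ℝ) (f : E n → ℂ) (c : ℂ) (x : E n) :
    TR n M (fun y => c * f y) x = c * TR n M f x := by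
  unfold TR
  rw [← integral_const_mul]
  refine integral_congr_ae (ae_of_all _ fun ξ => ?_)
  simp only
  have : ∫ y : E n, e (-(⟪y, ξ⟫ : ℝ)) * (c * f y) = c * ∫ y : E n, e (-(⟪y, ξ⟫ : ℝ)) * f y := by
    rw [← integral_const_mul]
    refine integral_congr_ae (ae_of_all _ fun y => ?_)
    simp only
    ring
  rw [this]
  ring

/-- convergence along an exhaustion -/
lemma TR_lim (n : ℕ) (M : ℝ → ℝ) (hM : Continuous M) (hM2 : ∀ u, 2 < u → M u = 0)
    (f : E n → ℂ) (hf : Integrable f) (x : E n) (S : ℕ → Set (E n)) (hS : ∀ j, MeasurableSet (S j))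
    (hmono : Monotone S) (hU : ⋃ j, S j = univ) :
    Tendsto (fun j => TR n M ((S j).indicator f) x) atTop (𝓝 (TR n M f x)) := by
  have hMi := Pool.Agent.H438R2.RZ.R3aux.M_int n M hM hM2
  set K : E n → ℂ := fun y => ∫ ξ : E n, ((M (‖ξ‖ ^ 2) : ℝ) : ℂ) * e (⟪x - y, ξ⟫ : ℝ) with hK
  have hKm : AEStronglyMeasurable K volume := by
    have : StronglyMeasurable (Function.uncurry (fun (y ξ : E n) => ((M (‖ξ‖ ^ 2) : ℝ) : ℂ) *
        e (⟪x - y, ξ⟫ : ℝ))) := by
      refine Measurable.stronglyMeasurable ?_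
      refine Measurable.mul ?_ ?_
      · have : Continuous (fun p : E n × E n => ((M (‖p.2‖ ^ 2) : ℝ) : ℂ)) := by fun_prop
        exact this.measurable
      · exact (Pool.Agent.TH554.J639.e_cont.comp (by fun_prop)).measurable
    exact this.integral_prod_right.aestronglyMeasurable
  have hKb : ∀ y, ‖K y‖ ≤ ∫ ξ : E n, ‖((M (‖ξ‖ ^ 2) : ℝ) : ℂ)‖ := by
    intro y
    refine (norm_integral_le_integral_norm _).trans (le_of_eq ?_)
    refine integral_congr_ae (ae_of_all _ fun ξ => ?_)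
    simp [Pool.Agent.TH554.J639.e_norm]
  have hKf : Integrable (fun y => K y * f y) := hf.bdd_mul hKm (ae_of_all _ hKb)
  have h1 : ∀ j, TR n M ((S j).indicator f) x = ∫ y in S j, K y * f y := by
    intro j
    rw [Pool.Agent.H438R2.RZ.TR_conv n M hM hM2 _ (hf.indicator (hS j)) x,
      ← integral_indicator (hS j)]
    refine integral_congr_ae (ae_of_all _ fun y => ?_)
    by_cases hy : y ∈ S j
    · simp [hy, hK]
    · simp [hy]
  have h2 : TR n M f x = ∫ y in ⋃ j, S j, K y * f y := by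
    rw [Pool.Agent.H438R2.RZ.TR_conv n M hM hM2 _ hf x, hU, Measure.restrict_univ]
  simp_rw [h1]
  rw [h2]
  exact tendsto_setIntegral_of_monotone hS hmono (by rw [hU]; exact hKf.integrableOn)

/-- normalisation of one factor -/
lemma norm_bd {X : Type*} [MeasureSpace X] (S : Set X) (hS : volume S ≠ ∞) (p : ℝ) (hp : 1 ≤ p)
    (h : X → ℂ) (hh : Measurable h) (N ε : ℝ) (hN : 0 < N) (hε : 0 < ε)
    (hI : (∫⁻ z, ‖h z‖ₑ ^ p) ^ (1 / p) ≤ ENNReal.ofReal N) :
    ∫⁻ z in S, ENNReal.ofReal ((max ‖h z‖ ε / (N + ε * ((volume S) ^ (1 / p)).toReal)) ^ p) ≤ 1 := by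
  have hp0 : 0 < p := by linarith
  set κ := ((volume S) ^ (1 / p)).toReal with hκ
  have hκ0 : 0 ≤ κ := ENNReal.toReal_nonneg
  have hN' : 0 < N + ε * κ := by positivity
  have hfin : (volume S) ^ (1 / p) ≠ ∞ := ENNReal.rpow_ne_top_of_nonneg (by positivity) hS
  have h1 : (∫⁻ z in S, (‖h z‖ₑ + ENNReal.ofReal ε) ^ p) ^ (1 / p) ≤ ENNReal.ofReal (N + ε * κ) := by
    have h2 := ENNReal.lintegral_Lp_add_le (μ := volume.restrict S) (p := p)
      (f := fun z => ‖h z‖ₑ) (g := fun _ => ENNReal.ofReal ε) hh.enorm.aemeasurable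
      aemeasurable_const hp
    refine h2.trans ?_
    rw [ENNReal.ofReal_add hN.le (by positivity), ENNReal.ofReal_mul hε.le]
    refine add_le_add ?_ ?_
    · refine (ENNReal.rpow_le_rpow (setLIntegral_le_lintegral _ _) (by positivity)).trans hI
    · rw [lintegral_const, Measure.restrict_apply_univ, ENNReal.mul_rpow_of_nonneg _ _ (by positivity),
        ← ENNReal.rpow_mul, mul_one_div_cancel hp0.ne', ENNReal.rpow_one, hκ,
        ENNReal.ofReal_toReal hfin]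
  have h3 : ∫⁻ z in S, (‖h z‖ₑ + ENNReal.ofReal ε) ^ p ≤ ENNReal.ofReal (N + ε * κ) ^ p := by
    have := ENNReal.rpow_le_rpow h1 hp0.le
    rwa [← ENNReal.rpow_mul, one_div_mul_cancel hp0.ne', ENNReal.rpow_one] at this
  have h4 : ∀ z, ENNReal.ofReal ((max ‖h z‖ ε / (N + ε * κ)) ^ p) ≤
      (ENNReal.ofReal (N + ε * κ) ^ p)⁻¹ * (‖h z‖ₑ + ENNReal.ofReal ε) ^ p := by
    intro z
    have h5 : 0 ≤ max ‖h z‖ ε := le_max_of_le_right hε.le
    rw [← ENNReal.ofReal_rpow_of_nonneg (by positivity) hp0.le, ENNReal.ofReal_div_of_pos hN',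
      div_eq_mul_inv, ENNReal.mul_rpow_of_nonneg _ _ hp0.le, ENNReal.inv_rpow, mul_comm]
    refine mul_le_mul_right ?_ _
    refine ENNReal.rpow_le_rpow ?_ hp0.le
    rw [← ofReal_norm, ← ENNReal.ofReal_add (norm_nonneg _) hε.le]
    refine ENNReal.ofReal_le_ofReal ?_
    refine max_le ?_ ?_
    · linarith
    · linarith [norm_nonneg (h z)]
  have hc0 : ENNReal.ofReal (N + ε * κ) ^ p ≠ 0 := by
    refine (ENNReal.rpow_pos ?_ ENNReal.ofReal_ne_top).ne'
    simpa using hN'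
  have hct : ENNReal.ofReal (N + ε * κ) ^ p ≠ ∞ :=
    ENNReal.rpow_ne_top_of_nonneg hp0.le ENNReal.ofReal_ne_top
  calc ∫⁻ z in S, ENNReal.ofReal ((max ‖h z‖ ε / (N + ε * κ)) ^ p)
      ≤ ∫⁻ z in S, (ENNReal.ofReal (N + ε * κ) ^ p)⁻¹ * (‖h z‖ₑ + ENNReal.ofReal ε) ^ p :=
        lintegral_mono h4
    _ = (ENNReal.ofReal (N + ε * κ) ^ p)⁻¹ * ∫⁻ z in S, (‖h z‖ₑ + ENNReal.ofReal ε) ^ p := by
        rw [lintegral_const_mul' _ _ (ENNReal.inv_ne_top.2 hc0)]
    _ ≤ (ENNReal.ofReal (N + ε * κ) ^ p)⁻¹ * ENNReal.ofReal (N + ε * κ) ^ p := by gcongr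
    _ = 1 := ENNReal.inv_mul_cancel hc0 hct

/-- one cube, one regularisation parameter -/
lemma piece_eps (k : ℕ) (ψ : ℝ → ℝ) (L p A : ℝ) (hp : 1 ≤ p)
    (hcore : ProdCore k ψ L p A) (g : ℝ × ℝ → ℂ) (φ : Fin k → ℝ → ℂ) (hg : Measurable g)
    (hφ : ∀ i, Measurable (φ i)) (K : ℝ) (hK : 0 < K) (hgK : ∀ z, ‖g z‖ ≤ K)
    (hφK : ∀ i s, ‖φ i s‖ ≤ K) (N₀ : ℝ) (N : Fin k → ℝ) (hN₀ : 0 < N₀) (hN : ∀ i, 0 < N i)
    (hI₀ : (∫⁻ z, ‖g z‖ₑ ^ p) ^ (1 / p) ≤ ENNReal.ofReal N₀)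
    (hI : ∀ i, (∫⁻ s, ‖φ i s‖ₑ ^ p) ^ (1 / p) ≤ ENNReal.ofReal (N i)) (B : ℝ) (hB : 0 < B)
    (ε : ℝ) (hε : 0 < ε) :
    (∫⁻ x in Cube (k + 2) B, ‖TR (k + 2) (ML ψ L) ((Cube (k + 2) B).indicator
      (fun x => g (x 0, x 1) * ∏ i : Fin k, φ i (x i.succ.succ))) x‖ₑ ^ p) ^ (1 / p) ≤
      ENNReal.ofReal (A * ((N₀ + ε * ((volume (Icc (-B) B ×ˢ Icc (-B) B)) ^ (1 / p)).toReal) *
        ∏ i, (N i + ε * ((volume (Icc (-B) B)) ^ (1 / p)).toReal))) := by
  have hp0 : 0 < p := by linarith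
  set S₀ : Set (ℝ × ℝ) := Icc (-B) B ×ˢ Icc (-B) B with hS₀
  set S₁ : Set ℝ := Icc (-B) B with hS₁
  have hv₀ : volume S₀ ≠ ∞ := by
    rw [hS₀]
    exact (isCompact_Icc.prod isCompact_Icc).measure_lt_top.ne
  have hv₁ : volume S₁ ≠ ∞ := isCompact_Icc.measure_lt_top.ne
  set N₀' : ℝ := N₀ + ε * ((volume S₀) ^ (1 / p)).toReal with hN₀'
  set N' : Fin k → ℝ := fun i => N i + ε * ((volume S₁) ^ (1 / p)).toReal with hN'
  have h0 : 0 < N₀' := by
    have : 0 ≤ ((volume S₀) ^ (1 / p)).toReal := ENNReal.toReal_nonneg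
    positivity
  have h1 : ∀ i, 0 < N' i := by
    intro i
    have h2 : 0 ≤ ((volume S₁) ^ (1 / p)).toReal := ENNReal.toReal_nonneg
    have h3 := hN i
    simp only [hN']
    positivity
  set g' : ℝ × ℝ → ℝ := fun z => max ‖g z‖ ε / N₀' with hg'
  set φ' : Fin k → ℝ → ℝ := fun i s => max ‖φ i s‖ ε / N' i with hφ'
  set u₀ : ℝ × ℝ → ℂ := fun z => S₀.indicator (fun z => g z / ((max ‖g z‖ ε : ℝ) : ℂ)) z with hu₀
  set u : Fin k → ℝ → ℂ := fun i s => S₁.indicator (fun s => φ i s / ((max ‖φ i s‖ ε : ℝ) : ℂ)) s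
    with hu
  have hmS₀ : MeasurableSet S₀ := measurableSet_Icc.prod measurableSet_Icc
  have hmS₁ : MeasurableSet S₁ := measurableSet_Icc
  have hsum : 0 ≤ ∑ i, N' i := Finset.sum_nonneg fun i _ => (h1 i).le
  have hsumi : 0 ≤ ∑ i, (N' i)⁻¹ := Finset.sum_nonneg fun i _ => (inv_pos.2 (h1 i)).le
  have hle : ∀ i, N' i ≤ ∑ i, N' i := fun i =>
    Finset.single_le_sum (fun i _ => (h1 i).le) (Finset.mem_univ i)
  have hlei : ∀ i, (N' i)⁻¹ ≤ ∑ i, (N' i)⁻¹ := fun i =>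
    Finset.single_le_sum (f := fun i => (N' i)⁻¹) (fun i _ => (inv_pos.2 (h1 i)).le)
      (Finset.mem_univ i)
  have hquot : ∀ w : ℂ, ‖w / ((max ‖w‖ ε : ℝ) : ℂ)‖ ≤ 1 := by
    intro w
    have h5 : 0 < max ‖w‖ ε := lt_max_of_lt_right hε
    rw [norm_div, Complex.norm_real, Real.norm_of_nonneg h5.le]
    exact div_le_one_of_le₀ (le_max_left _ _) h5.le
  have hmeasq : ∀ {X : Type} [MeasurableSpace X] (w : X → ℂ), Measurable w →
      Measurable (fun z => w z / ((max ‖w z‖ ε : ℝ) : ℂ)) := by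
    intro X _ w hw
    exact hw.div (Complex.measurable_ofReal.comp (hw.norm.max measurable_const))
  have key := hcore B hB g' φ' ((hg.norm.max measurable_const).div_const _)
    (fun i => ((hφ i).norm.max measurable_const).div_const _)
    (ε / (N₀' + ∑ i, N' i)) ((K + ε) * (N₀'⁻¹ + ∑ i, (N' i)⁻¹)) (by positivity)
    (by
      intro z
      constructor
      · simp only [hg']
        exact div_le_div₀ (le_max_of_le_right hε.le) (le_max_right _ _) h0 (by linarith)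
      · simp only [hg', div_eq_mul_inv]
        refine mul_le_mul (max_le (by linarith [hgK z]) (by linarith)) (by linarith)
          (inv_pos.2 h0).le (by linarith))
    (by
      intro i s
      constructor
      · simp only [hφ']
        exact div_le_div₀ (le_max_of_le_right hε.le) (le_max_right _ _) (h1 i)
          (by linarith [hle i])
      · simp only [hφ', div_eq_mul_inv]
        refine mul_le_mul (max_le (by linarith [hφK i s]) (by linarith))
          (by linarith [hlei i, inv_pos.2 h0]) (inv_pos.2 (h1 i)).le (by linarith))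
    (norm_bd S₀ hv₀ p hp g hg N₀ ε hN₀ hε hI₀)
    (fun i => norm_bd S₁ hv₁ p hp (φ i) (hφ i) (N i) ε (hN i) hε (hI i))
    u₀ u ((hmeasq g hg).indicator hmS₀) (fun i => (hmeasq (φ i) (hφ i)).indicator hmS₁)
    (by
      intro z
      simp only [hu₀, indicator]
      split_ifs
      · exact hquot _
      · simp)
    (by
      intro i s
      simp only [hu, indicator]
      split_ifs
      · exact hquot _
      · simp)
    (by
      intro z hz
      have hz' : z ∈ S₀ := by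
        by_contra hz'
        exact hz (by simp [hu₀, hz'])
      rw [hS₀] at hz'
      exact ⟨abs_le.2 hz'.1, abs_le.2 hz'.2⟩)
    (by
      intro i s hs
      have hs' : s ∈ S₁ := by
        by_contra hs'
        exact hs (by simp [hu, hs'])
      exact abs_le.2 hs')
  -- the product
  set c : ℝ := N₀' * ∏ i, N' i with hc
  have hcpos : 0 < c := mul_pos h0 (Finset.prod_pos fun i _ => h1 i)
  have hprod : ∀ x : E (k + 2), (Cube (k + 2) B).indicator
      (fun x => g (x 0, x 1) * ∏ i : Fin k, φ i (x i.succ.succ)) x =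
      (c : ℂ) * ((u₀ (x 0, x 1) * ∏ i : Fin k, u i (x i.succ.succ)) *
        ((g' (x 0, x 1) * ∏ i : Fin k, φ' i (x i.succ.succ) : ℝ) : ℂ)) := by
    intro x
    have hfac : ∀ (w : ℂ) (n : ℝ), 0 < n → w / ((max ‖w‖ ε : ℝ) : ℂ) * ((max ‖w‖ ε / n : ℝ) : ℂ) =
        w / (n : ℂ) := by
      intro w n hn
      have h5 : ((max ‖w‖ ε : ℝ) : ℂ) ≠ 0 := by
        exact_mod_cast (lt_max_of_lt_right hε).ne'
      rw [Complex.ofReal_div]
      field_simp
    by_cases hx : x ∈ Cube (k + 2) B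
    · have hx0 : (x 0, x 1) ∈ S₀ := ⟨abs_le.1 (hx 0), abs_le.1 (hx 1)⟩
      have hx1 : ∀ i : Fin k, x i.succ.succ ∈ S₁ := fun i => abs_le.1 (hx _)
      rw [indicator_of_mem hx]
      have e1 : u₀ (x 0, x 1) * ((g' (x 0, x 1) : ℝ) : ℂ) = g (x 0, x 1) / (N₀' : ℂ) := by
        simp only [hu₀, hg', indicator_of_mem hx0]
        exact hfac _ _ h0
      have e2 : ∀ i : Fin k, u i (x i.succ.succ) * ((φ' i (x i.succ.succ) : ℝ) : ℂ) =
          φ i (x i.succ.succ) / (N' i : ℂ) := by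
        intro i
        simp only [hu, hφ', indicator_of_mem (hx1 i)]
        exact hfac _ _ (h1 i)
      have e3 : (u₀ (x 0, x 1) * ∏ i : Fin k, u i (x i.succ.succ)) *
          ((g' (x 0, x 1) * ∏ i : Fin k, φ' i (x i.succ.succ) : ℝ) : ℂ) =
          (u₀ (x 0, x 1) * ((g' (x 0, x 1) : ℝ) : ℂ)) *
            ∏ i : Fin k, (u i (x i.succ.succ) * ((φ' i (x i.succ.succ) : ℝ) : ℂ)) := by
        rw [Finset.prod_mul_distrib, Complex.ofReal_mul, Complex.ofReal_prod]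
        ring
      rw [e3, e1, Finset.prod_congr rfl (fun i _ => e2 i), Finset.prod_div_distrib, hc,
        Complex.ofReal_mul, Complex.ofReal_prod]
      have h6 : (N₀' : ℂ) ≠ 0 := by exact_mod_cast h0.ne'
      have h7 : (∏ i, (N' i : ℂ)) ≠ 0 := Finset.prod_ne_zero_iff.2 fun i _ => by
        exact_mod_cast (h1 i).ne'
      field_simp
    · rw [indicator_of_notMem hx]
      have hex : ∃ j, ¬ |x j| ≤ B := by
        by_contra hcon
        push Not at hcon
        exact hx hcon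
      obtain ⟨j, hj⟩ := hex
      have hzero : u₀ (x 0, x 1) * ∏ i : Fin k, u i (x i.succ.succ) = 0 := by
        revert hj
        refine Fin.cases ?_ (fun j => ?_) j
        · intro hj
          have : (x 0, x 1) ∉ S₀ := fun h => hj (abs_le.2 h.1)
          simp [hu₀, this]
        · refine Fin.cases ?_ (fun j => ?_) j
          · intro hj
            have : (x 0, x 1) ∉ S₀ := fun h => hj (abs_le.2 h.2)
            simp [hu₀, this]
          · intro hj
            have h8 : x j.succ.succ ∉ S₁ := fun h => hj (abs_le.2 h)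
            have h9 : u j (x j.succ.succ) = 0 := by simp [hu, h8]
            rw [Finset.prod_eq_zero (Finset.mem_univ j) h9, mul_zero]
      rw [hzero]
      simp
  have hTR : ∀ x, TR (k + 2) (ML ψ L) ((Cube (k + 2) B).indicator
      (fun x => g (x 0, x 1) * ∏ i : Fin k, φ i (x i.succ.succ))) x =
      (c : ℂ) * TR (k + 2) (ML ψ L) (fun x => (u₀ (x 0, x 1) * ∏ i : Fin k, u i (x i.succ.succ)) *
        ((g' (x 0, x 1) * ∏ i : Fin k, φ' i (x i.succ.succ) : ℝ) : ℂ)) x := by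
    intro x
    rw [← TR_smul]
    congr 1
    funext y
    exact hprod y
  simp_rw [hTR, enorm_mul, ENNReal.mul_rpow_of_nonneg _ _ hp0.le]
  rw [lintegral_const_mul' _ _ (ENNReal.rpow_ne_top_of_nonneg hp0.le enorm_ne_top),
    ENNReal.mul_rpow_of_nonneg _ _ (by positivity), ← ENNReal.rpow_mul,
    mul_one_div_cancel hp0.ne', ENNReal.rpow_one, ← ofReal_norm, Complex.norm_real,
    Real.norm_of_nonneg hcpos.le, mul_comm A c, ENNReal.ofReal_mul hcpos.le]
  exact mul_le_mul_right key _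

/-- one cube -/
lemma piece_box (k : ℕ) (ψ : ℝ → ℝ) (L p A : ℝ) (hp : 1 ≤ p)
    (hcore : ProdCore k ψ L p A) (g : ℝ × ℝ → ℂ) (φ : Fin k → ℝ → ℂ) (hg : Measurable g)
    (hφ : ∀ i, Measurable (φ i)) (K : ℝ) (hK : 0 < K) (hgK : ∀ z, ‖g z‖ ≤ K)
    (hφK : ∀ i s, ‖φ i s‖ ≤ K) (N₀ : ℝ) (N : Fin k → ℝ) (hN₀ : 0 < N₀) (hN : ∀ i, 0 < N i)
    (hI₀ : (∫⁻ z, ‖g z‖ₑ ^ p) ^ (1 / p) ≤ ENNReal.ofReal N₀)
    (hI : ∀ i, (∫⁻ s, ‖φ i s‖ₑ ^ p) ^ (1 / p) ≤ ENNReal.ofReal (N i)) (B : ℝ) (hB : 0 < B) :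
    (∫⁻ x in Cube (k + 2) B, ‖TR (k + 2) (ML ψ L) ((Cube (k + 2) B).indicator
      (fun x => g (x 0, x 1) * ∏ i : Fin k, φ i (x i.succ.succ))) x‖ₑ ^ p) ^ (1 / p) ≤
      ENNReal.ofReal (A * (N₀ * ∏ i, N i)) := by
  have hc : Continuous (fun ε : ℝ => ENNReal.ofReal (A *
      ((N₀ + ε * ((volume (Icc (-B) B ×ˢ Icc (-B) B)) ^ (1 / p)).toReal) *
        ∏ i, (N i + ε * ((volume (Icc (-B) B)) ^ (1 / p)).toReal)))) := by
    refine ENNReal.continuous_ofReal.comp ?_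
    fun_prop
  have ht : Tendsto (fun ε : ℝ => ENNReal.ofReal (A *
      ((N₀ + ε * ((volume (Icc (-B) B ×ˢ Icc (-B) B)) ^ (1 / p)).toReal) *
        ∏ i, (N i + ε * ((volume (Icc (-B) B)) ^ (1 / p)).toReal)))) (𝓝[>] 0)
      (𝓝 (ENNReal.ofReal (A * (N₀ * ∏ i, N i)))) := by
    have := (hc.tendsto 0).mono_left (nhdsWithin_le_nhds (s := Ioi 0))
    simpa using this
  refine ge_of_tendsto ht ?_
  filter_upwards [self_mem_nhdsWithin] with ε hε
  exact piece_eps k ψ L p A hp hcore g φ hg hφ K hK hgK hφK N₀ N hN₀ hN hI₀ hI B hB ε hε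

lemma Cube_meas (n : ℕ) (B : ℝ) : MeasurableSet (Cube n B) := by
  have : Cube n B = ⋂ i, {x : E n | |x i| ≤ B} := by
    ext x
    simp [Cube]
  rw [this]
  refine MeasurableSet.iInter fun i => ?_
  exact measurableSet_le (by fun_prop) measurable_const

lemma Cube_mono (n : ℕ) : Monotone (fun j : ℕ => Cube n ((j : ℝ) + 1)) := by
  intro a b hab x hx i
  have : (a : ℝ) ≤ b := by exact_mod_cast hab
  exact (hx i).trans (by linarith)

lemma Cube_union (n : ℕ) : ⋃ j : ℕ, Cube n ((j : ℝ) + 1) = univ := by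
  refine eq_univ_of_forall fun x => ?_
  obtain ⟨j, hj⟩ := exists_nat_ge (∑ i, |x i|)
  refine mem_iUnion.2 ⟨j, fun i => ?_⟩
  have := Finset.single_le_sum (f := fun i => |x i|) (fun i _ => abs_nonneg (x i)) (Finset.mem_univ i)
  simp only at this
  linarith

/-- positivity of the norm of a nonzero continuous function -/
lemma norm_pos' {X : Type*} [TopologicalSpace X] [MeasureSpace X] [BorelSpace X]
    [(volume : Measure X).IsOpenPosMeasure] (h : X → ℂ) (hh : Continuous h) (x₀ : X)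
    (hx : h x₀ ≠ 0) (p : ℝ) (hp : 0 < p) : (∫⁻ x, ‖h x‖ₑ ^ p) ≠ 0 := by
  intro h0
  rw [lintegral_eq_zero_iff (by fun_prop)] at h0
  have h1 : (fun x => ‖h x‖ₑ ^ p) =ᵐ[volume] fun _ => 0 := h0
  have h2 : h =ᵐ[volume] fun _ => (0 : ℂ) := by
    filter_upwards [h1] with x hx
    simpa [ENNReal.rpow_eq_zero_iff, hp, hp.not_gt] using hx
  have h3 := (Continuous.ae_eq_iff_eq volume hh continuous_const).1 h2
  exact hx (congrFun h3 x₀)

theorem prod_piece (k : ℕ) (ψ : ℝ → ℝ) (hψ : Bump ψ) (L p A : ℝ) (hL : 20 ≤ L) (hp : 1 ≤ p)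
    (hA : 0 < A) (hcore : ProdCore k ψ L p A) (f : E (k + 2) → ℂ) (hf : Continuous f)
    (hfi : Integrable f) (hfb : ∃ M : ℝ, ∀ x, ‖f x‖ ≤ M) (g : ℝ × ℝ → ℂ) (φ : Fin k → ℝ → ℂ)
    (hprod : ∀ x, f x = g (x 0, x 1) * ∏ i : Fin k, φ i (x i.succ.succ)) :
    eLpNorm (TR (k + 2) (ML ψ L) f) (ENNReal.ofReal p) volume ≤
      ENNReal.ofReal A * eLpNorm f (ENNReal.ofReal p) volume := by
  have hp0 : 0 < p := by linarith
  have hpe : ENNReal.ofReal p ≠ 0 := by simpa using hp0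
  rw [eLpNorm_eq_lintegral_rpow_enorm_toReal hpe ENNReal.ofReal_ne_top,
    eLpNorm_eq_lintegral_rpow_enorm_toReal hpe ENNReal.ofReal_ne_top,
    ENNReal.toReal_ofReal hp0.le]
  by_cases hf0 : ∀ x, f x = 0
  · have h1 : ∀ x, TR (k + 2) (ML ψ L) f x = 0 := by
      intro x
      unfold TR
      simp [hf0]
    simp [h1, hp0, hf0]
  push Not at hf0
  obtain ⟨x₀, hx₀⟩ := hf0
  obtain ⟨M, hM⟩ := hfb
  have hpx := hprod x₀
  have hg0 : g (x₀ 0, x₀ 1) ≠ 0 := by
    intro h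
    rw [h, zero_mul] at hpx
    exact hx₀ hpx
  have hP0 : ∏ i : Fin k, φ i (x₀ i.succ.succ) ≠ 0 := by
    intro h
    rw [h, mul_zero] at hpx
    exact hx₀ hpx
  have hφ0 : ∀ i : Fin k, φ i (x₀ i.succ.succ) ≠ 0 := fun i =>
    Finset.prod_ne_zero_iff.1 hP0 i (Finset.mem_univ i)
  -- the two variable factor
  set w₀ : E k := WithLp.toLp 2 (fun i : Fin k => x₀ i.succ.succ) with hw₀
  have hgeq : ∀ z, g z = f (inp z w₀) / ∏ i : Fin k, φ i (x₀ i.succ.succ) := by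
    intro z
    have h1 := hprod (inp z w₀)
    have h2 : ∀ i : Fin k, (inp z w₀) i.succ.succ = x₀ i.succ.succ := by
      intro i
      simp [inp, hw₀]
    have h3 : ((inp z w₀ : E (k + 2)) 0, (inp z w₀ : E (k + 2)) 1) = z := by
      simp [inp]
    rw [h3] at h1
    simp_rw [h2] at h1
    rw [h1]
    field_simp
  have hinp : Continuous (fun z : ℝ × ℝ => (inp z w₀ : E (k + 2))) := by
    unfold inp
    refine (PiLp.continuous_toLp 2 _).comp ?_
    refine continuous_pi fun j => ?_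
    refine Fin.cases ?_ (fun j => ?_) j
    · simpa using continuous_fst
    · refine Fin.cases ?_ (fun j => ?_) j
      · simpa using continuous_snd
      · simpa using continuous_const
  have hgc : Continuous g := by
    have : g = fun z => f (inp z w₀) / ∏ i : Fin k, φ i (x₀ i.succ.succ) := funext hgeq
    rw [this]
    exact (hf.comp hinp).div_const _
  -- the one variable factors
  have hφeq : ∀ (i : Fin k) (s : ℝ), φ i s =
      f (WithLp.toLp 2 (Function.update (fun j => x₀ j) i.succ.succ s)) /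
        (g (x₀ 0, x₀ 1) * ∏ j ∈ Finset.univ.erase i, φ j (x₀ j.succ.succ)) := by
    intro i s
    have h1 := hprod (WithLp.toLp 2 (Function.update (fun j => x₀ j) i.succ.succ s))
    have h2 : ∏ j ∈ Finset.univ.erase i, φ j (x₀ j.succ.succ) ≠ 0 :=
      Finset.prod_ne_zero_iff.2 fun j _ => hφ0 j
    have h3 : (0 : Fin (k + 2)) ≠ i.succ.succ := (Fin.succ_ne_zero _).symm
    have h4 : (1 : Fin (k + 2)) ≠ i.succ.succ := by
      intro h
      have : (1 : Fin (k + 2)) = Fin.succ 0 := rfl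
      rw [this] at h
      exact (Fin.succ_ne_zero _).symm (Fin.succ_injective _ h)
    rw [h1, ← Finset.mul_prod_erase Finset.univ _ (Finset.mem_univ i)]
    have h5 : ∏ j ∈ Finset.univ.erase i, φ j ((WithLp.toLp 2 (Function.update (fun j => x₀ j)
        i.succ.succ s) : E (k + 2)) j.succ.succ) =
        ∏ j ∈ Finset.univ.erase i, φ j (x₀ j.succ.succ) := by
      refine Finset.prod_congr rfl fun j hj => ?_
      have hji : j ≠ i := (Finset.mem_erase.1 hj).1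
      have : j.succ.succ ≠ i.succ.succ := fun h =>
        hji (Fin.succ_injective _ (Fin.succ_injective _ h))
      simp [Function.update_of_ne this]
    rw [h5]
    simp only [Function.update_self, Function.update_of_ne h3, Function.update_of_ne h4]
    field_simp
  have hφc : ∀ i, Continuous (φ i) := by
    intro i
    have : φ i = fun s => f (WithLp.toLp 2 (Function.update (fun j => x₀ j) i.succ.succ s)) /
        (g (x₀ 0, x₀ 1) * ∏ j ∈ Finset.univ.erase i, φ j (x₀ j.succ.succ)) := funext (hφeq i)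
    rw [this]
    refine (hf.comp ?_).div_const _
    refine (PiLp.continuous_toLp 2 _).comp ?_
    exact continuous_const.update _ continuous_id
  -- bounds
  have hM0 : 0 ≤ M := (norm_nonneg _).trans (hM x₀)
  obtain ⟨K, hK, hgK, hφK⟩ : ∃ K : ℝ, 0 < K ∧ (∀ z, ‖g z‖ ≤ K) ∧ ∀ i s, ‖φ i s‖ ≤ K := by
    refine ⟨1 + M / ‖∏ i : Fin k, φ i (x₀ i.succ.succ)‖ +
      ∑ i, M / ‖g (x₀ 0, x₀ 1) * ∏ j ∈ Finset.univ.erase i, φ j (x₀ j.succ.succ)‖, ?_, ?_, ?_⟩
    · positivity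
    · intro z
      rw [hgeq z, norm_div]
      have h1 : ‖f (inp z w₀)‖ / ‖∏ i : Fin k, φ i (x₀ i.succ.succ)‖ ≤
          M / ‖∏ i : Fin k, φ i (x₀ i.succ.succ)‖ := by
        gcongr
        exact hM _
      have h2 : 0 ≤ ∑ i, M / ‖g (x₀ 0, x₀ 1) * ∏ j ∈ Finset.univ.erase i, φ j (x₀ j.succ.succ)‖ :=
        Finset.sum_nonneg fun i _ => by positivity
      linarith
    · intro i s
      have h1 : ‖φ i s‖ ≤
          M / ‖g (x₀ 0, x₀ 1) * ∏ j ∈ Finset.univ.erase i, φ j (x₀ j.succ.succ)‖ := by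
        rw [hφeq i s, norm_div]
        gcongr
        exact hM _
      have h2 := Finset.single_le_sum (f := fun i =>
        M / ‖g (x₀ 0, x₀ 1) * ∏ j ∈ Finset.univ.erase i, φ j (x₀ j.succ.succ)‖)
        (fun i _ => by positivity) (Finset.mem_univ i)
      have h3 : 0 ≤ M / ‖∏ i : Fin k, φ i (x₀ i.succ.succ)‖ := by positivity
      simp only at h2
      linarith
  -- the norm of the product
  have hnorm : ∫⁻ x, ‖f x‖ₑ ^ p = (∫⁻ z, ‖g z‖ₑ ^ p) * ∏ i, ∫⁻ s, ‖φ i s‖ₑ ^ p := by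
    rw [← lint_prod k (fun z => ‖g z‖ₑ ^ p) (by fun_prop) (fun i s => ‖φ i s‖ₑ ^ p)
      (fun i => (hφc i).enorm.measurable.pow_const p)]
    refine lintegral_congr fun x => ?_
    rw [hprod x, enorm_mul, ENNReal.mul_rpow_of_nonneg _ _ hp0.le]
    congr 1
    rw [ENNReal.prod_rpow_of_nonneg hp0.le]
    congr 1
    simp [enorm_eq_nnnorm]
  have hgn : (∫⁻ z, ‖g z‖ₑ ^ p) ≠ 0 := norm_pos' g hgc _ hg0 p hp0
  have hφn : ∀ i, (∫⁻ s, ‖φ i s‖ₑ ^ p) ≠ 0 := fun i => norm_pos' (φ i) (hφc i) _ (hφ0 i) p hp0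
  by_cases htop : (∫⁻ z, ‖g z‖ₑ ^ p) = ∞ ∨ ∃ i, (∫⁻ s, ‖φ i s‖ₑ ^ p) = ∞
  · have h1 : ∫⁻ x, ‖f x‖ₑ ^ p = ∞ := by
      rw [hnorm]
      rcases htop with h | ⟨i, hi⟩
      · rw [h]
        exact ENNReal.top_mul (Finset.prod_ne_zero_iff.2 fun i _ => hφn i)
      · rw [← Finset.mul_prod_erase Finset.univ _ (Finset.mem_univ i), hi, mul_comm]
        rw [ENNReal.top_mul (Finset.prod_ne_zero_iff.2 fun i _ => hφn i)]
        exact ENNReal.top_mul hgn
    rw [h1, ENNReal.top_rpow_of_pos (by positivity), ENNReal.mul_top (by simpa using hA)]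
    exact le_top
  push Not at htop
  obtain ⟨hgt, hφt⟩ := htop
  set N₀ : ℝ := ((∫⁻ z, ‖g z‖ₑ ^ p) ^ (1 / p)).toReal with hN₀
  set N : Fin k → ℝ := fun i => ((∫⁻ s, ‖φ i s‖ₑ ^ p) ^ (1 / p)).toReal with hN
  have ht0 : (∫⁻ z, ‖g z‖ₑ ^ p) ^ (1 / p) ≠ ∞ := ENNReal.rpow_ne_top_of_nonneg (by positivity) hgt
  have ht1 : ∀ i, (∫⁻ s, ‖φ i s‖ₑ ^ p) ^ (1 / p) ≠ ∞ := fun i =>
    ENNReal.rpow_ne_top_of_nonneg (by positivity) (hφt i)
  have hN₀p : 0 < N₀ := ENNReal.toReal_pos (by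
    rw [Ne, ENNReal.rpow_eq_zero_iff]
    push Not
    exact ⟨fun h => absurd h hgn, fun h => absurd h hgt⟩) ht0
  have hNp : ∀ i, 0 < N i := fun i => ENNReal.toReal_pos (by
    rw [Ne, ENNReal.rpow_eq_zero_iff]
    push Not
    exact ⟨fun h => absurd h (hφn i), fun h => absurd h (hφt i)⟩) (ht1 i)
  have hNeq : ENNReal.ofReal (A * (N₀ * ∏ i, N i)) =
      ENNReal.ofReal A * (∫⁻ x, ‖f x‖ₑ ^ p) ^ (1 / p) := by
    rw [ENNReal.ofReal_mul hA.le, ENNReal.ofReal_mul hN₀p.le,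
      ENNReal.ofReal_prod_of_nonneg (fun i _ => (hNp i).le), hN₀, ENNReal.ofReal_toReal ht0, hnorm,
      ENNReal.mul_rpow_of_nonneg _ _ (by positivity), ← ENNReal.prod_rpow_of_nonneg (by positivity)]
    congr 3
    funext i
    rw [hN]
    exact ENNReal.ofReal_toReal (ht1 i)
  rw [← hNeq]
  have hbox := fun B hB => piece_box k ψ L p A hp hcore g φ hgc.measurable
    (fun i => (hφc i).measurable) K hK hgK hφK N₀ N hN₀p hNp
    (by rw [hN₀, ENNReal.ofReal_toReal ht0])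
    (fun i => by rw [hN]; exact (ENNReal.ofReal_toReal (ht1 i)).ge) B hB
  -- Fatou
  have hfe : (fun x : E (k + 2) => g (x 0, x 1) * ∏ i : Fin k, φ i (x i.succ.succ)) = f :=
    (funext hprod).symm
  rw [hfe] at hbox
  have hTm : ∀ j : ℕ, Measurable (TR (k + 2) (ML ψ L) ((Cube (k + 2) ((j : ℝ) + 1)).indicator f)) :=
    fun j => TR_meas _ _ (ML_cont ψ hψ L) _ (hf.measurable.indicator (Cube_meas _ _))
  set F : ℕ → E (k + 2) → ℝ≥0∞ := fun j => (Cube (k + 2) ((j : ℝ) + 1)).indicator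
    (fun x => ‖TR (k + 2) (ML ψ L) ((Cube (k + 2) ((j : ℝ) + 1)).indicator f) x‖ₑ ^ p) with hF
  have hFm : ∀ j, Measurable (F j) := fun j =>
    ((hTm j).enorm.pow_const p).indicator (Cube_meas _ _)
  have hlim : ∀ x, Tendsto (fun j => F j x) atTop (𝓝 (‖TR (k + 2) (ML ψ L) f x‖ₑ ^ p)) := by
    intro x
    have h1 := TR_lim (k + 2) (ML ψ L) (ML_cont ψ hψ L) (ML_zero ψ hψ L) f hfi x
      (fun j : ℕ => Cube (k + 2) ((j : ℝ) + 1)) (fun j => Cube_meas _ _) (Cube_mono _) (Cube_union _)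
    have h2 := (ENNReal.continuous_rpow_const (y := p)).tendsto _ |>.comp
      ((continuous_enorm.tendsto _).comp h1)
    refine h2.congr' ?_
    have h3 : x ∈ ⋃ j : ℕ, Cube (k + 2) ((j : ℝ) + 1) := by rw [Cube_union]; trivial
    obtain ⟨j₀, hj₀⟩ := mem_iUnion.1 h3
    filter_upwards [eventually_ge_atTop j₀] with j hj
    have h4 : x ∈ Cube (k + 2) ((j : ℝ) + 1) := Cube_mono (k + 2) hj hj₀
    simp only [hF, indicator_of_mem h4, Function.comp]
  have hFi : ∀ j, ∫⁻ x, F j x ≤ ENNReal.ofReal (A * (N₀ * ∏ i, N i)) ^ p := by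
    intro j
    have h1 := hbox ((j : ℝ) + 1) (by positivity)
    have h2 := ENNReal.rpow_le_rpow h1 hp0.le
    rw [← ENNReal.rpow_mul, one_div_mul_cancel hp0.ne', ENNReal.rpow_one] at h2
    rw [lintegral_indicator (Cube_meas _ _)]
    exact h2
  have hfat : ∫⁻ x, ‖TR (k + 2) (ML ψ L) f x‖ₑ ^ p ≤ ENNReal.ofReal (A * (N₀ * ∏ i, N i)) ^ p := by
    calc ∫⁻ x, ‖TR (k + 2) (ML ψ L) f x‖ₑ ^ p = ∫⁻ x, liminf (fun j => F j x) atTop :=
          lintegral_congr fun x => (hlim x).liminf_eq.symm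
      _ ≤ liminf (fun j => ∫⁻ x, F j x) atTop := lintegral_liminf_le hFm
      _ ≤ ENNReal.ofReal (A * (N₀ * ∏ i, N i)) ^ p := by
          refine Filter.liminf_le_of_frequently_le' ?_
          exact (Eventually.of_forall hFi).frequently
  have h9 := ENNReal.rpow_le_rpow hfat (z := 1 / p) (by positivity)
  rwa [← ENNReal.rpow_mul, mul_one_div_cancel hp0.ne', ENNReal.rpow_one] at h9

end Pool.Agent.TH500.J718
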