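import Pool.Agent.TH144.AE.Var

set_option autoImplicit false

open MvPolynomial

namespace Pool.Agent.TH500.J848

open Pool.Agent.TH144.AE

/-- the polynomial `y^4 + z^4` -/
noncomputable def qq : MvPolynomial (Fin 2) ℂ := X 0 ^ 4 + X 1 ^ 4

lemma eval_qq (s : Fin 2 → ℂ) : eval s qq = s 0 ^ 4 + s 1 ^ 4 := by simp [qq]

lemma qq_ne : qq ≠ 0 := by
  intro h
  have := eval_qq ![1, 0]
  rw [h] at this
  simp at this

lemma qq_not_mem (P : Ideal (MvPolynomial (Fin 2) ℂ)) (hP : pderiv 0 qq ∉ P) : qq ∉ P ^ 2 := by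
  have h : ∀ f ∈ P ^ 2, pderiv 0 f ∈ P := by
    intro f hf
    rw [pow_two] at hf
    refine Submodule.mul_induction_on hf ?_ ?_
    · intro a ha b hb
      rw [Derivation.leibniz, smul_eq_mul, smul_eq_mul]
      exact P.add_mem (P.mul_mem_right _ ha) (P.mul_mem_right _ hb)
    · intro a b ha hb
      rw [map_add]
      exact P.add_mem ha hb
  exact fun hq => hP (h _ hq)

lemma FF_irr : Irreducible (Polynomial.X ^ 4 - Polynomial.C qq : Polynomial (MvPolynomial (Fin 2) ℂ)) := by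
  obtain ⟨ζ, hζ⟩ : ∃ ζ : ℂ, ζ ^ 4 = -1 := IsAlgClosed.exists_pow_nat_eq (-1) (by norm_num)
  have hζ0 : ζ ≠ 0 := by
    rintro rfl
    norm_num at hζ
  set φ : MvPolynomial (Fin 2) ℂ →ₐ[ℂ] Polynomial ℂ :=
    aeval ![Polynomial.C ζ * Polynomial.X, Polynomial.X] with hφ
  have hmon : (Polynomial.X ^ 4 - Polynomial.C qq : Polynomial (MvPolynomial (Fin 2) ℂ)).Monic :=
    Polynomial.monic_X_pow_sub_C qq (by norm_num)
  have hdeg : (Polynomial.X ^ 4 - Polynomial.C qq : Polynomial (MvPolynomial (Fin 2) ℂ)).degree = 4 := by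
    rw [Polynomial.degree_X_pow_sub_C (by norm_num)]
    rfl
  have hq0 : φ qq = 0 := by
    simp only [qq, hφ, map_add, map_pow, aeval_X]
    simp only [Matrix.cons_val_zero, Matrix.cons_val_one]
    rw [mul_pow, ← Polynomial.C_pow, hζ]
    simp
  refine Polynomial.irreducible_of_eisenstein_criterion (P := RingHom.ker (φ : MvPolynomial (Fin 2) ℂ →+* Polynomial ℂ))
    (RingHom.ker_isPrime _) ?_ ?_ ?_ ?_ hmon.isPrimitive
  · rw [hmon.leadingCoeff, RingHom.mem_ker]
    simp
  · intro n hn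
    rw [hdeg] at hn
    have hn4 : n < 4 := by exact_mod_cast hn
    rw [Polynomial.coeff_sub, Polynomial.coeff_X_pow, Polynomial.coeff_C, if_neg (by omega)]
    by_cases h0 : n = 0
    · rw [if_pos h0, zero_sub]
      exact neg_mem (by rw [RingHom.mem_ker]; exact hq0)
    · rw [if_neg h0, sub_zero]
      exact zero_mem _
  · rw [hdeg]; norm_num
  · have hc : (Polynomial.X ^ 4 - Polynomial.C qq : Polynomial (MvPolynomial (Fin 2) ℂ)).coeff 0 = -qq := by
      rw [Polynomial.coeff_sub, Polynomial.coeff_X_pow, Polynomial.coeff_C]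
      simp
    rw [hc]
    intro hmem
    have hmem' : qq ∈ (RingHom.ker (φ : MvPolynomial (Fin 2) ℂ →+* Polynomial ℂ)) ^ 2 := by
      have := neg_mem hmem
      rwa [neg_neg] at this
    refine qq_not_mem _ ?_ hmem'
    rw [RingHom.mem_ker]
    have hd : pderiv (0 : Fin 2) qq = C 4 * X 0 ^ 3 := by
      have h1 : pderiv (0 : Fin 2) (X 1 : MvPolynomial (Fin 2) ℂ) = 0 := pderiv_X_of_ne (by decide)
      rw [qq, map_add, Derivation.leibniz_pow, Derivation.leibniz_pow, pderiv_X_self, h1]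
      simp only [smul_eq_mul, mul_one, mul_zero, smul_zero, add_zero, nsmul_eq_mul]
      norm_num
      exact (map_ofNat C 4).symm
    rw [hd]
    change φ (C 4 * X 0 ^ 3) ≠ 0
    rw [map_mul, map_pow, hφ, aeval_X, aeval_C]
    simp only [Matrix.cons_val_zero]
    refine mul_ne_zero ?_ (pow_ne_zero _ (mul_ne_zero (Polynomial.C_ne_zero.2 hζ0) Polynomial.X_ne_zero))
    exact Polynomial.C_ne_zero.2 (by norm_num)

lemma FF_prime : Prime (Polynomial.X ^ 4 - Polynomial.C qq : Polynomial (MvPolynomial (Fin 2) ℂ)) :=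
  FF_irr.prime

lemma dvd_of_vanish (p : Polynomial (MvPolynomial (Fin 2) ℂ))
    (h : ∀ (t : ℂ) (s : Fin 2 → ℂ), t ^ 4 = s 0 ^ 4 + s 1 ^ 4 → s 0 ^ 4 + s 1 ^ 4 ≠ 0 →
      Polynomial.eval t (Polynomial.map (eval s) p) = 0) :
    (Polynomial.X ^ 4 - Polynomial.C qq) ∣ p := by
  have hmon : (Polynomial.X ^ 4 - Polynomial.C qq : Polynomial (MvPolynomial (Fin 2) ℂ)).Monic :=
    Polynomial.monic_X_pow_sub_C qq (by norm_num)
  rw [← Polynomial.modByMonic_eq_zero_iff_dvd hmon]
  set r := p %ₘ (Polynomial.X ^ 4 - Polynomial.C qq) with hr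
  have hdeg : r.natDegree < 4 := by
    have := Polynomial.natDegree_modByMonic_lt p hmon (by
      intro h1
      have h2 := congrArg Polynomial.natDegree h1
      rw [Polynomial.natDegree_X_pow_sub_C, Polynomial.natDegree_one] at h2
      norm_num at h2)
    rwa [Polynomial.natDegree_X_pow_sub_C] at this
  have hsum : r + (Polynomial.X ^ 4 - Polynomial.C qq) * (p /ₘ (Polynomial.X ^ 4 - Polynomial.C qq)) = p :=
    Polynomial.modByMonic_add_div p _
  have hrz : ∀ (t : ℂ) (s : Fin 2 → ℂ), t ^ 4 = s 0 ^ 4 + s 1 ^ 4 → s 0 ^ 4 + s 1 ^ 4 ≠ 0 →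
      Polynomial.eval t (Polynomial.map (eval s) r) = 0 := by
    intro t s h1 h2
    have h3 := h t s h1 h2
    rw [← hsum] at h3
    simp only [Polynomial.map_add, Polynomial.map_mul, Polynomial.map_sub, Polynomial.map_pow,
      Polynomial.map_X, Polynomial.map_C, Polynomial.eval_add, Polynomial.eval_mul,
      Polynomial.eval_sub, Polynomial.eval_pow, Polynomial.eval_X, Polynomial.eval_C] at h3
    rw [eval_qq, h1, sub_self, zero_mul, add_zero] at h3
    exact h3
  have hmap : ∀ s : Fin 2 → ℂ, s 0 ^ 4 + s 1 ^ 4 ≠ 0 → Polynomial.map (eval s) r = 0 := by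
    intro s hs
    obtain ⟨t, ht⟩ : ∃ t : ℂ, t ^ 4 = s 0 ^ 4 + s 1 ^ 4 := IsAlgClosed.exists_pow_nat_eq _ (by norm_num)
    have ht0 : t ≠ 0 := by
      rintro rfl
      apply hs
      rw [← ht]
      norm_num
    have hI2 : Complex.I ^ 2 = -1 := Complex.I_sq
    have hI4 : Complex.I ^ 4 = 1 := Complex.I_pow_four
    refine Polynomial.eq_zero_of_natDegree_lt_card_of_eval_eq_zero' _ ({t, -t, Complex.I * t, -(Complex.I * t)} : Finset ℂ) ?_ ?_
    · intro z hz
      refine hrz z s ?_ hs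
      simp only [Finset.mem_insert, Finset.mem_singleton] at hz
      rcases hz with rfl | rfl | rfl | rfl
      · exact ht
      · rw [← ht]; ring
      · rw [← ht, mul_pow, hI4, one_mul]
      · rw [← ht, Even.neg_pow (by decide), mul_pow, hI4, one_mul]
    · have hI0 : Complex.I ≠ 0 := Complex.I_ne_zero
      have hne : ∀ a b : ℂ, a ≠ b → a * t ≠ b * t := fun a b hab h => hab (mul_right_cancel₀ ht0 h)
      have e1 : t ≠ -t := by
        have := hne 1 (-1) (by norm_num)
        simpa using this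
      have e2 : t ≠ Complex.I * t := by
        have := hne 1 Complex.I (by
          intro h
          have h' := congrArg Complex.im h
          simp at h')
        simpa using this
      have e3 : t ≠ -(Complex.I * t) := by
        have := hne 1 (-Complex.I) (by
          intro h
          have h' := congrArg Complex.im h
          simp at h')
        simpa using this
      have e4 : -t ≠ Complex.I * t := by
        have := hne (-1) Complex.I (by
          intro h
          have h' := congrArg Complex.im h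
          simp at h')
        simpa using this
      have e5 : -t ≠ -(Complex.I * t) := fun h => e2 (neg_injective h)
      have e6 : Complex.I * t ≠ -(Complex.I * t) := by
        have := hne Complex.I (-Complex.I) (by
          intro h
          have h' := congrArg Complex.im h
          norm_num at h')
        simpa using this
      have hcard : ({t, -t, Complex.I * t, -(Complex.I * t)} : Finset ℂ).card = 4 := by
        rw [Finset.card_insert_of_notMem, Finset.card_insert_of_notMem,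
          Finset.card_insert_of_notMem, Finset.card_singleton]
        · simpa using e6
        · simp only [Finset.mem_insert, Finset.mem_singleton]
          tauto
        · simp only [Finset.mem_insert, Finset.mem_singleton]
          tauto
      rw [hcard]
      exact lt_of_le_of_lt (Polynomial.natDegree_map_le) hdeg
  ext1 n
  rw [Polynomial.coeff_zero]
  have h5 : r.coeff n * qq = 0 := by
    refine MvPolynomial.funext fun s => ?_
    rw [map_mul, map_zero, eval_qq]
    by_cases hs : s 0 ^ 4 + s 1 ^ 4 = 0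
    · rw [hs, mul_zero]
    · have h6 := congrArg (fun q => Polynomial.coeff q n) (hmap s hs)
      simp only [Polynomial.coeff_map, Polynomial.coeff_zero] at h6
      rw [h6, zero_mul]
  exact (mul_eq_zero.1 h5).resolve_right qq_ne

lemma dvd_iff (P : MvPolynomial (Fin 3) ℂ) :
    (∀ b ∈ Cone, eval b P = 0) ↔ (Polynomial.X ^ 4 - Polynomial.C qq) ∣ finSuccEquiv ℂ 2 P := by
  constructor
  · intro h
    refine dvd_of_vanish _ fun t s h1 h2 => ?_
    rw [← eval_eq_eval_mv_eval']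
    refine h _ ⟨?_, ?_⟩
    · intro h3
      have h4 := congrFun h3 0
      simp only [Fin.cons_zero, Pi.zero_apply] at h4
      rw [h4] at h1
      exact h2 (by rw [← h1]; norm_num)
    · exact h1
  · rintro ⟨q, hq⟩ b hb
    have h1 : b = Fin.cons (b 0) (Fin.tail b) := (Fin.cons_self_tail b).symm
    rw [h1, eval_eq_eval_mv_eval', hq]
    simp only [Polynomial.map_mul, Polynomial.map_sub, Polynomial.map_pow,
      Polynomial.map_X, Polynomial.map_C, Polynomial.eval_mul,
      Polynomial.eval_sub, Polynomial.eval_pow, Polynomial.eval_X, Polynomial.eval_C]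
    rw [eval_qq]
    have h2 : b 0 ^ 4 - (Fin.tail b 0 ^ 4 + Fin.tail b 1 ^ 4) = 0 := by
      rw [sub_eq_zero]
      exact hb.2
    rw [h2, zero_mul]

lemma star (P Q : MvPolynomial (Fin 3) ℂ) {b₁ b₂ : Fin 3 → ℂ} (h₁ : b₁ ∈ Cone) (h₂ : b₂ ∈ Cone)
    (hP : eval b₁ P ≠ 0) (hQ : eval b₂ Q ≠ 0) : ∃ b ∈ Cone, eval b P ≠ 0 ∧ eval b Q ≠ 0 := by
  by_contra hcon
  push Not at hcon
  have h3 : ∀ b ∈ Cone, eval b (P * Q) = 0 := by
    intro b hb
    rw [map_mul]
    by_cases h : eval b P = 0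
    · rw [h, zero_mul]
    · rw [hcon b hb h, mul_zero]
  rw [dvd_iff, map_mul] at h3
  rcases FF_prime.dvd_or_dvd h3 with h | h
  · exact hP ((dvd_iff P).2 h b₁ h₁)
  · exact hQ ((dvd_iff Q).2 h b₂ h₂)

/-- substitution -/
lemma eval_sub' {σ τ : Type} (g : σ → MvPolynomial τ ℂ) (G : MvPolynomial σ ℂ) (b : τ → ℂ) :
    eval b (aeval g G) = eval (fun i => eval b (g i)) G := by
  induction G using MvPolynomial.induction_on with
  | C a => simp
  | add p q hp hq => rw [map_add, map_add, map_add, hp, hq]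
  | mul_X p i hp => rw [map_mul, map_mul, map_mul, hp, aeval_X, eval_X]

lemma eval_hom {σ : Type} {G : MvPolynomial σ ℂ} {d : ℕ} (hG : G.IsHomogeneous d) (a : ℂ)
    (v : σ → ℂ) : eval (a • v) G = a ^ d * eval v G := by
  rw [eval_eq, eval_eq, Finset.mul_sum]
  refine Finset.sum_congr rfl fun m hm => ?_
  have h1 : m.degree = d := by
    have := hG (mem_support_iff.1 hm)
    rw [Finsupp.degree_eq_weight_one]
    exact this
  have h2 : ∏ i ∈ m.support, (a • v) i ^ m i = a ^ d * ∏ i ∈ m.support, v i ^ m i := by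
    rw [← h1, Finsupp.degree_apply, ← Finset.prod_pow_eq_pow_sum, ← Finset.prod_mul_distrib]
    refine Finset.prod_congr rfl fun i _ => ?_
    rw [Pi.smul_apply, smul_eq_mul, mul_pow]
  rw [h2]
  ring

/-- the parametrization as a polynomial in `b` -/
noncomputable def PB (c : Fin 3 → ℂ) (s : Fin 2 → ℂ) : Idx → MvPolynomial (Fin 3) ℂ :=
  let Ps : Fin 4 → MvPolynomial (Fin 3) ℂ :=
    ![X 0 * C (c 0) * C (s 0), X 0 * C (c 0) * C (s 1) + X 0 * C (c 1) * C (s 0) + X 1 * C (c 0) * C (s 0),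
      X 0 * C (c 1) * C (s 1) + X 1 * C (c 0) * C (s 1) + X 1 * C (c 1) * C (s 0),
      X 1 * C (c 1) * C (s 1)]
  Sum.elim (fun p => Ps p.1 * Ps p.2)
    fun p => (X 0 - X 1) * C (lam c) * X p.1 * C (c p.2.1) * C (s p.2.2.1) * C (s p.2.2.2)

/-- the parametrization as a polynomial in `c` -/
noncomputable def PC (b : Fin 3 → ℂ) (s : Fin 2 → ℂ) : Idx → MvPolynomial (Fin 3) ℂ :=
  let Ps : Fin 4 → MvPolynomial (Fin 3) ℂ :=
    ![C (b 0) * X 0 * C (s 0), C (b 0) * X 0 * C (s 1) + C (b 0) * X 1 * C (s 0) + C (b 1) * X 0 * C (s 0),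
      C (b 0) * X 1 * C (s 1) + C (b 1) * X 0 * C (s 1) + C (b 1) * X 1 * C (s 0),
      C (b 1) * X 1 * C (s 1)]
  Sum.elim (fun p => Ps p.1 * Ps p.2)
    fun p => C (lam b) * (X 0 - X 1) * C (b p.1) * X p.2.1 * C (s p.2.2.1) * C (s p.2.2.2)

/-- the parametrization as a polynomial in `s` -/
noncomputable def PSS (b c : Fin 3 → ℂ) : Idx → MvPolynomial (Fin 2) ℂ :=
  let Ps : Fin 4 → MvPolynomial (Fin 2) ℂ :=
    ![C (b 0) * C (c 0) * X 0, C (b 0) * C (c 0) * X 1 + C (b 0) * C (c 1) * X 0 + C (b 1) * C (c 0) * X 0,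
      C (b 0) * C (c 1) * X 1 + C (b 1) * C (c 0) * X 1 + C (b 1) * C (c 1) * X 0,
      C (b 1) * C (c 1) * X 1]
  Sum.elim (fun p => Ps p.1 * Ps p.2)
    fun p => C (lam b) * C (lam c) * C (b p.1) * C (c p.2.1) * X p.2.2.1 * X p.2.2.2

lemma eval_PB (b c : Fin 3 → ℂ) (s : Fin 2 → ℂ) (G : MvPolynomial Idx ℂ) :
    eval b (aeval (PB c s) G) = eval (Phi b c s) G := by
  rw [eval_sub']
  congr 1
  congr 1
  funext i
  rcases i with ⟨i, j⟩ | ⟨k, l, m, n⟩
  · fin_cases i <;> fin_cases j <;> simp [PB, Phi, Psi]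
  · simp [PB, Phi, lam]

lemma eval_PC (b c : Fin 3 → ℂ) (s : Fin 2 → ℂ) (G : MvPolynomial Idx ℂ) :
    eval c (aeval (PC b s) G) = eval (Phi b c s) G := by
  rw [eval_sub']
  congr 1
  congr 1
  funext i
  rcases i with ⟨i, j⟩ | ⟨k, l, m, n⟩
  · fin_cases i <;> fin_cases j <;> simp [PC, Phi, Psi]
  · simp [PC, Phi, lam]

lemma eval_PSS (b c : Fin 3 → ℂ) (s : Fin 2 → ℂ) (G : MvPolynomial Idx ℂ) :
    eval s (aeval (PSS b c) G) = eval (Phi b c s) G := by
  rw [eval_sub']
  congr 1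
  congr 1
  funext i
  rcases i with ⟨i, j⟩ | ⟨k, l, m, n⟩
  · fin_cases i <;> fin_cases j <;> simp [PSS, Phi, Psi]
  · simp [PSS, Phi, lam]

theorem XX_irreducible (G H : MvPolynomial Idx ℂ) (d e : ℕ) (hG : G.IsHomogeneous d)
    (hH : H.IsHomogeneous e)
    (h : ∀ x ∈ XX, ∀ v, IsCoord x v → eval v G * eval v H = 0) :
    (∀ x ∈ XX, ∀ v, IsCoord x v → eval v G = 0) ∨ (∀ x ∈ XX, ∀ v, IsCoord x v → eval v H = 0) := by
  by_contra hcon
  push Not at hcon
  obtain ⟨⟨x₁, ⟨b₁, hb₁, c₁, hc₁, s₁, hs₁, hx₁⟩, v₁, hv₁, hG₁⟩,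
    ⟨x₂, ⟨b₂, hb₂, c₂, hc₂, s₂, hs₂, hx₂⟩, v₂, hv₂, hH₂⟩⟩ := hcon
  have g1 : eval (Phi b₁ c₁ s₁) G ≠ 0 := by
    obtain ⟨a, ha, rfl⟩ := hx₁.exists_smul hv₁
    rw [eval_hom hG] at hG₁
    exact right_ne_zero_of_mul hG₁
  have g2 : eval (Phi b₂ c₂ s₂) H ≠ 0 := by
    obtain ⟨a, ha, rfl⟩ := hx₂.exists_smul hv₂
    rw [eval_hom hH] at hH₂
    exact right_ne_zero_of_mul hH₂
  obtain ⟨b, hb, g3, g4⟩ := star (aeval (PB c₁ s₁) G) (aeval (PB c₂ s₂) H) hb₁ hb₂
    (by rwa [eval_PB]) (by rwa [eval_PB])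
  rw [eval_PB] at g3 g4
  obtain ⟨c, hc, g5, g6⟩ := star (aeval (PC b s₁) G) (aeval (PC b s₂) H) hc₁ hc₂
    (by rwa [eval_PC]) (by rwa [eval_PC])
  rw [eval_PC] at g5 g6
  have n1 : aeval (PSS b c) G ≠ 0 := by
    intro h0
    have := eval_PSS b c s₁ G
    rw [h0, map_zero] at this
    exact g5 this.symm
  have n2 : aeval (PSS b c) H ≠ 0 := by
    intro h0
    have := eval_PSS b c s₂ H
    rw [h0, map_zero] at this
    exact g6 this.symm
  have n3 : aeval (PSS b c) G * aeval (PSS b c) H * X 0 ≠ 0 :=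
    mul_ne_zero (mul_ne_zero n1 n2) (X_ne_zero 0)
  obtain ⟨s, hs⟩ : ∃ s : Fin 2 → ℂ, eval s (aeval (PSS b c) G * aeval (PSS b c) H * X 0) ≠ 0 := by
    by_contra hcon
    push Not at hcon
    exact n3 (MvPolynomial.funext fun s => by rw [hcon s, map_zero])
  rw [map_mul, map_mul, eval_PSS, eval_PSS, eval_X] at hs
  have hs0 : s ≠ 0 := by
    rintro rfl
    exact hs (by simp)
  have hne := Phi_ne_zero hb hc hs0
  have := h (Projectivization.mk ℂ (Phi b c s) hne) ⟨b, hb, c, hc, s, hs0, isCoord_mk hne⟩ _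
    (isCoord_mk hne)
  exact left_ne_zero_of_mul hs this

end Pool.Agent.TH500.J848
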