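import Mathlib

/-!
# Two finite permutation quotients with a conjugation invariant family of three cycles
-/

set_option autoImplicit false

namespace Pool.Agent.TH27.FS

open Equiv Equiv.Perm Subgroup

section ThreeCycles

variable {G O Ω : Type} [Group G] [Fintype O] [DecidableEq O] [Fintype Ω] [DecidableEq Ω]

/-- the subgroup generated by the members of `T` which move only points of `W`. -/
private def KW (θ : G →* Perm O) (T : Set G) (W : Set O) : Subgroup G :=
  Subgroup.closure {t | t ∈ T ∧ ∀ x, θ t x ≠ x → x ∈ W}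

omit [Fintype O] [DecidableEq O] in
private theorem KW_le (θ : G →* Perm O) (T : Set G) (W : Set O) :
    KW θ T W ≤ Subgroup.closure T :=
  Subgroup.closure_mono fun _ ht => ht.1

omit [Fintype O] [DecidableEq O] in
private theorem KW_conj (θ : G →* Perm O) (T : Set G) (hconj : ∀ g : G, ∀ t ∈ T, g * t * g⁻¹ ∈ T)
    (W : Set O) (g k : G) (hk : k ∈ KW θ T W) : g * k * g⁻¹ ∈ KW θ T (θ g '' W) := by
  unfold KW at hk
  induction hk using Subgroup.closure_induction with
  | mem t ht =>
    refine Subgroup.subset_closure ⟨hconj g t ht.1, fun x hx => ?_⟩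
    refine ⟨(θ g)⁻¹ x, ht.2 _ fun h => hx ?_, by simp⟩
    rw [map_mul, map_mul, map_inv, Perm.mul_apply, Perm.mul_apply, h]
    simp
  | one => simp
  | mul x y _ _ hx hy =>
    have : g * (x * y) * g⁻¹ = (g * x * g⁻¹) * (g * y * g⁻¹) := by group
    rw [this]
    exact mul_mem hx hy
  | inv x _ hx =>
    have : g * x⁻¹ * g⁻¹ = (g * x * g⁻¹)⁻¹ := by group
    rw [this]
    exact inv_mem hx

omit [Fintype O] [DecidableEq O] [Fintype Ω] [DecidableEq Ω] in
private theorem KW_comm (θ : G →* Perm O) (ψ : G →* Perm Ω) (T : Set G)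
    (hcomm : ∀ t ∈ T, ∀ t' ∈ T, (θ t).Disjoint (θ t') → ψ t * ψ t' = ψ t' * ψ t)
    (W W' : Set O) (hW : ∀ x ∈ W, x ∉ W') (a b : G) (ha : a ∈ KW θ T W) (hb : b ∈ KW θ T W') :
    Commute (ψ a) (ψ b) := by
  have h1 : ∀ t ∈ T, (∀ x, θ t x ≠ x → x ∈ W) → Commute (ψ t) (ψ b) := by
    intro t ht htW
    unfold KW at hb
    induction hb using Subgroup.closure_induction with
    | mem t' ht' =>
      refine hcomm t ht t' ht'.1 fun x => ?_
      by_contra h
      push Not at h
      exact hW x (htW x h.1) (ht'.2 x h.2)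
    | one => simp
    | mul x y _ _ hx hy => rw [map_mul]; exact hx.mul_right hy
    | inv x _ hx => rw [map_inv]; exact hx.inv_right
  unfold KW at ha
  induction ha using Subgroup.closure_induction with
  | mem t ht => exact h1 t ht.1 ht.2
  | one => simp
  | mul x y _ _ hx hy => rw [map_mul]; exact hx.mul_left hy
  | inv x _ hx => rw [map_inv]; exact hx.inv_left

private theorem closure_normal (T : Set G) (hconj : ∀ g : G, ∀ t ∈ T, g * t * g⁻¹ ∈ T) :
    (Subgroup.closure T).Normal := by
  constructor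
  intro k hk g
  induction hk using Subgroup.closure_induction with
  | mem t ht => exact Subgroup.subset_closure (hconj g t ht)
  | one => simp
  | mul x y _ _ hx hy =>
    have : g * (x * y) * g⁻¹ = (g * x * g⁻¹) * (g * y * g⁻¹) := by group
    rw [this]
    exact mul_mem hx hy
  | inv x _ hx =>
    have : g * x⁻¹ * g⁻¹ = (g * x * g⁻¹)⁻¹ := by group
    rw [this]
    exact inv_mem hx

/-- a normal subgroup of the symmetric group which is not trivial contains the alternating group. -/
private theorem alt_le (hΩ : 5 ≤ Fintype.card Ω) (N : Subgroup (Perm Ω)) (hN : N.Normal)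
    (x : Perm Ω) (hx : x ∈ N) (hx1 : x ≠ 1) : alternatingGroup Ω ≤ N := by
  have : Nontrivial N := by
    refine ⟨⟨⟨x, hx⟩, 1, fun h => hx1 ?_⟩⟩
    simpa using congrArg Subtype.val h
  exact alternatingGroup_le_of_normal (by rwa [Nat.card_eq_fintype_card]) this

/-- there is a permutation moving a set of three points off itself. -/
private theorem exists_move (hO : 6 ≤ Fintype.card O) (s : Finset O) (hs : s.card = 3) :
    ∃ σ : Perm O, ∀ x ∈ s, σ x ∉ s := by
  have hc : 3 ≤ (sᶜ).card := by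
    rw [Finset.card_compl, hs]
    omega
  obtain ⟨s', hs', hs'3⟩ := Finset.exists_subset_card_eq hc
  have e : {x // x ∈ s} ≃ {x // x ∈ s'} := Fintype.equivOfCardEq (by simp [hs, hs'3])
  refine ⟨e.extendSubtype, fun x hx => ?_⟩
  have := hs' (e.extendSubtype_mem x hx)
  simpa using this

/-- Two finite permutation quotients with a conjugation invariant family of three cycles. -/
theorem card_eq_of_three_cycles {G O Ω : Type} [Group G] [Fintype O] [DecidableEq O]
    [Fintype Ω] [DecidableEq Ω] (θ : G →* Equiv.Perm O) (ψ : G →* Equiv.Perm Ω)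
    (hθ : Function.Surjective θ) (hψ : Function.Surjective ψ)
    (hO : 6 ≤ Fintype.card O) (hΩ : 5 ≤ Fintype.card Ω)
    (T : Set G) (hconj : ∀ g : G, ∀ t ∈ T, g * t * g⁻¹ ∈ T)
    (h3 : ∀ t ∈ T, (θ t).IsThreeCycle) (hcube : ∀ t ∈ T, t ^ 3 = 1)
    (hcomm : ∀ t ∈ T, ∀ t' ∈ T, (θ t).Disjoint (θ t') → ψ t * ψ t' = ψ t' * ψ t)
    (hne : ∃ t ∈ T, ψ t ≠ 1) : Fintype.card O = Fintype.card Ω := by
  classical
  obtain ⟨t₀, ht₀, ht₀1⟩ := hne
  set K := Subgroup.closure T with hK
  have hKn : K.Normal := closure_normal T hconj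
  have hTK : ∀ t ∈ T, t ∈ K := fun t ht => Subgroup.subset_closure ht
  -- the image of `K` under `ψ`
  have hSle : K.map ψ ≤ alternatingGroup Ω := by
    rw [Subgroup.map_le_iff_le_comap, hK, Subgroup.closure_le]
    intro t ht
    have h : (sign (ψ t)) ^ 3 = 1 := by
      rw [← map_pow, ← map_pow, hcube t ht, map_one, map_one]
    simp only [Subgroup.coe_comap, Set.mem_preimage, SetLike.mem_coe, mem_alternatingGroup]
    rcases Int.units_eq_one_or (sign (ψ t)) with h' | h'
    · exact h'
    · rw [h'] at h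
      exact absurd h (by decide)
  have hSn : (K.map ψ).Normal := hKn.map ψ hψ
  have hSge : alternatingGroup Ω ≤ K.map ψ :=
    alt_le hΩ _ hSn (ψ t₀) (Subgroup.mem_map_of_mem ψ (hTK t₀ ht₀)) ht₀1
  have hS : K.map ψ = alternatingGroup Ω := le_antisymm hSle hSge
  -- the image of `K` under `θ`
  have hOle : K.map θ ≤ alternatingGroup O := by
    rw [Subgroup.map_le_iff_le_comap, hK, Subgroup.closure_le]
    intro t ht
    exact (h3 t ht).mem_alternatingGroup
  have hOn : (K.map θ).Normal := hKn.map θ hθ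
  have ht₀θ : θ t₀ ≠ 1 := by
    intro h
    have := (h3 t₀ ht₀).card_support
    rw [h] at this
    simp at this
  have hOge : alternatingGroup O ≤ K.map θ :=
    alt_le (by omega) _ hOn (θ t₀) (Subgroup.mem_map_of_mem θ (hTK t₀ ht₀)) ht₀θ
  have hOeq : K.map θ = alternatingGroup O := le_antisymm hOle hOge
  -- the alternating group is not commutative
  have hcen : Subgroup.center (alternatingGroup Ω) = ⊥ :=
    alternatingGroup.center_eq_bot (by rw [Nat.card_eq_fintype_card]; omega)
  have haltne : ∃ x ∈ alternatingGroup Ω, x ≠ 1 :=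
    ⟨ψ t₀, hS ▸ Subgroup.mem_map_of_mem ψ (hTK t₀ ht₀), ht₀1⟩
  have hcentral : ∀ x ∈ alternatingGroup Ω, (∀ y ∈ alternatingGroup Ω, x * y = y * x) → x = 1 := by
    intro x hx hxy
    have : (⟨x, hx⟩ : alternatingGroup Ω) ∈ Subgroup.center (alternatingGroup Ω) := by
      rw [Subgroup.mem_center_iff]
      rintro ⟨y, hy⟩
      exact Subtype.ext (hxy y hy).symm
    rw [hcen, Subgroup.mem_bot] at this
    simpa using congrArg Subtype.val this
  have hsimple : IsSimpleGroup (alternatingGroup Ω) :=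
    alternatingGroup.isSimpleGroup (by rwa [Nat.card_eq_fintype_card])
  -- `K ⊓ ker θ` is killed by `ψ`
  have h1 : K ⊓ θ.ker ≤ ψ.ker := by
    have hN1n : (K ⊓ θ.ker).Normal := by infer_instance
    have hMn : ((K ⊓ θ.ker).map ψ).Normal := hN1n.map ψ hψ
    by_contra hcon
    obtain ⟨z₀, hz₀, hz₀1⟩ := SetLike.not_le_iff_exists.1 hcon
    rw [MonoidHom.mem_ker] at hz₀1
    have hMge : alternatingGroup Ω ≤ (K ⊓ θ.ker).map ψ :=
      alt_le hΩ _ hMn (ψ z₀) (Subgroup.mem_map_of_mem ψ hz₀) hz₀1
    -- conjugation by elements of the kernel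
    have hZconj : ∀ (W : Set O) (z k : G), θ z = 1 → k ∈ KW θ T W ⊓ θ.ker →
        z * k * z⁻¹ ∈ KW θ T W ⊓ θ.ker := by
      intro W z k hz hk
      refine ⟨?_, ?_⟩
      · have := KW_conj θ T hconj W z k hk.1
        rwa [hz, show ((1 : Perm O) '' W : Set O) = W from by simp] at this
      · have hk' : θ k = 1 := hk.2
        change θ (z * k * z⁻¹) = 1
        rw [map_mul, map_mul, hk', hz, map_inv, hz]
        simp
    have hdich : ∀ W : Set O, (KW θ T W ⊓ θ.ker).map ψ = ⊥ ∨
        (KW θ T W ⊓ θ.ker).map ψ = alternatingGroup Ω := by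
      intro W
      refine (Subgroup.isSimpleGroup_iff.1 hsimple).2 _ ?_ ?_
      · refine le_trans (Subgroup.map_mono (le_trans inf_le_left (KW_le θ T W))) hSle
      · constructor
        rintro ⟨n, hn⟩ hn' ⟨g, hg⟩
        rw [Subgroup.mem_subgroupOf] at hn' ⊢
        obtain ⟨z, hz, rfl⟩ := hMge hg
        obtain ⟨k, hk, hkn⟩ := hn'
        refine ⟨z * k * z⁻¹, hZconj W z k hz.2 hk, ?_⟩
        change ψ k = n at hkn
        simp [hkn]
    -- the local kernels are killed
    have hloc : ∀ t ∈ T, (KW θ T {x | θ t x ≠ x} ⊓ θ.ker).map ψ = ⊥ := by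
      intro t ht
      rcases hdich {x | θ t x ≠ x} with h | h
      · exact h
      · exfalso
        obtain ⟨σ, hσ⟩ := exists_move hO (θ t).support (h3 t ht).card_support
        obtain ⟨g, rfl⟩ := hθ σ
        obtain ⟨x, hx, hx1⟩ := haltne
        refine hx1 (hcentral x hx fun y hy => ?_)
        rw [← h] at hx
        obtain ⟨a, ha, rfl⟩ := hx
        -- conjugate of `y`
        have hy' : (ψ g)⁻¹ * y * (ψ g)⁻¹⁻¹ ∈ alternatingGroup Ω :=
          (inferInstance : (alternatingGroup Ω).Normal).conj_mem y hy _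
        rw [← h] at hy'
        obtain ⟨b, hb, hb'⟩ := hy'
        change ψ b = _ at hb'
        have hyb : y = ψ (g * b * g⁻¹) := by
          rw [map_mul, map_mul, map_inv, hb']
          group
        rw [hyb]
        refine KW_comm θ ψ T hcomm {x | θ t x ≠ x} (θ g '' {x | θ t x ≠ x}) ?_ a _ ha.1
          (KW_conj θ T hconj _ g b hb.1)
        rintro _ hx ⟨u, hu, rfl⟩
        exact hσ u (mem_support.2 hu) (mem_support.2 hx)
    -- hence `ψ z` is central
    obtain ⟨x, hx, hx1⟩ := haltne
    obtain ⟨z, hz, rfl⟩ := hMge hx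
    refine hx1 (hcentral _ hx fun y hy => ?_)
    rw [← hS] at hy
    obtain ⟨k, hk, rfl⟩ := hy
    change Commute (ψ z) (ψ k)
    have hz1 : θ z = 1 := hz.2
    rw [hK] at hk
    change k ∈ Subgroup.closure T at hk
    induction hk using Subgroup.closure_induction with
    | mem t ht =>
      have hmem : z * t * z⁻¹ * t⁻¹ ∈ KW θ T {x | θ t x ≠ x} ⊓ θ.ker := by
        refine Subgroup.mem_inf.2 ⟨mul_mem ?_ (inv_mem ?_), ?_⟩
        · refine Subgroup.subset_closure ⟨hconj z t ht, fun x hx => ?_⟩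
          rw [map_mul, map_mul, hz1, map_inv, hz1] at hx
          simpa using hx
        · exact Subgroup.subset_closure ⟨ht, fun x hx => hx⟩
        · change θ (z * t * z⁻¹ * t⁻¹) = 1
          rw [map_mul, map_mul, map_mul, hz1, map_inv, hz1, map_inv]
          simp
      have h0 : ψ (z * t * z⁻¹ * t⁻¹) = 1 := by
        have := Subgroup.mem_map_of_mem ψ hmem
        rw [hloc t ht] at this
        exact Subgroup.mem_bot.1 this
      rw [map_mul, map_mul, map_mul, map_inv, map_inv] at h0
      have h2 : ψ z * ψ t * (ψ z)⁻¹ = ψ t := mul_inv_eq_one.1 h0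
      exact mul_inv_eq_iff_eq_mul.1 h2
    | one => simp
    | mul x y _ _ hx hy => rw [map_mul]; exact hx.mul_right hy
    | inv x _ hx => rw [map_inv]; exact hx.inv_right
  -- `K ⊓ ker ψ` is killed by `θ`
  have h2 : K ⊓ ψ.ker ≤ θ.ker := by
    have hN2n : (K ⊓ ψ.ker).Normal := by infer_instance
    have hMn : ((K ⊓ ψ.ker).map θ).Normal := hN2n.map θ hθ
    by_contra hcon
    obtain ⟨z₀, hz₀, hz₀1⟩ := SetLike.not_le_iff_exists.1 hcon
    rw [MonoidHom.mem_ker] at hz₀1
    have hMge : alternatingGroup O ≤ (K ⊓ ψ.ker).map θ :=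
      alt_le (by omega) _ hMn (θ z₀) (Subgroup.mem_map_of_mem θ hz₀) hz₀1
    have := hMge (hOle (Subgroup.mem_map_of_mem θ (hTK t₀ ht₀)))
    obtain ⟨n, hn, hnt⟩ := this
    apply ht₀1
    have hn2 : ψ n = 1 := hn.2
    have hmem : t₀ * n⁻¹ ∈ K ⊓ θ.ker := by
      refine Subgroup.mem_inf.2 ⟨mul_mem (hTK t₀ ht₀) (inv_mem (Subgroup.mem_inf.1 hn).1), ?_⟩
      change θ (t₀ * n⁻¹) = 1
      change θ n = θ t₀ at hnt
      rw [map_mul, map_inv, hnt, mul_inv_cancel]
    have : ψ (t₀ * n⁻¹) = 1 := h1 hmem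
    rw [map_mul, map_inv, hn2] at this
    simpa using this
  have hker : θ.ker ⊓ K = ψ.ker ⊓ K := by
    apply le_antisymm
    · exact le_inf (fun x hx => h1 ⟨hx.2, hx.1⟩) inf_le_right
    · exact le_inf (fun x hx => h2 ⟨hx.2, hx.1⟩) inf_le_right
  have hcard : Nat.card (alternatingGroup O) = Nat.card (alternatingGroup Ω) := by
    rw [← hOeq, ← hS, ← Subgroup.relIndex_ker, ← Subgroup.relIndex_ker,
      ← Subgroup.inf_relIndex_right, hker, Subgroup.inf_relIndex_right]
  have hOnt : Nontrivial O := Fintype.one_lt_card_iff_nontrivial.1 (by omega)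
  have hΩnt : Nontrivial Ω := Fintype.one_lt_card_iff_nontrivial.1 (by omega)
  have hfac : (Fintype.card O).factorial = (Fintype.card Ω).factorial := by
    have e1 := two_mul_nat_card_alternatingGroup (α := O)
    have e2 := two_mul_nat_card_alternatingGroup (α := Ω)
    rw [Nat.card_eq_fintype_card (α := Perm O), Fintype.card_perm] at e1
    rw [Nat.card_eq_fintype_card (α := Perm Ω), Fintype.card_perm] at e2
    rw [← e1, ← e2, hcard]
  exact (Nat.factorial_inj (by omega)).1 hfac

end ThreeCycles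

end Pool.Agent.TH27.FS
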